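import Pool.Agent.U674.FP.Grp

/-!
# Free resolutions over `G * F` from free resolutions over `G`
-/

set_option autoImplicit false

namespace Pool.Agent.U674.FP

open Matrix TH57.FF MonoidAlgebra Monoid.Coprod
open Pool.Agent.U674.TI

section flat

variable {R S : Type} [Ring R] [Ring S]

/-- exact pairs of matrices go to exact pairs -/
theorem flat_pair (φ : R →+* S) (σ : Type) (u : σ → S) (hu : RB φ σ u) {l ι κ : Type} [Fintype l]
    [Fintype ι] (Y : Matrix l ι R) (A : Matrix ι κ R)
    (h1 : ∀ x : ι → R, x ᵥ* A = 0 ↔ ∃ y : l → R, y ᵥ* Y = x) (v : ι → S) :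
    v ᵥ* A.map φ = 0 ↔ ∃ y : l → S, y ᵥ* Y.map φ = v := by
  classical
  -- the coordinates of `v ᵥ* φ A`
  have key : ∀ (w : ι → σ →₀ R),
      ((fun i => (w i).sum fun s r => u s * φ r) ᵥ* A.map φ = 0) →
      ∀ s, (fun i => w i s) ᵥ* A = 0 := by
    intro w h s
    funext j
    set T : Finset σ := Finset.univ.biUnion fun i => (w i).support with hT
    let W : σ →₀ R := Finsupp.onFinset T (fun s => ((fun i => w i s) ᵥ* A) j) (by
      intro s hs
      by_contra hn
      apply hs
      have : ∀ i, w i s = 0 := by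
        intro i
        by_contra hi
        exact hn (Finset.mem_biUnion.2 ⟨i, Finset.mem_univ i, Finsupp.mem_support_iff.2 hi⟩)
      simp [Matrix.vecMul, dotProduct, this])
    have hW : (W.sum fun s r => u s * φ r) = 0 := by
      rw [Finsupp.onFinset_sum _ (fun a => by rw [map_zero, mul_zero])]
      have h1 : ((fun i => (w i).sum fun s r => u s * φ r) ᵥ* A.map φ) j = (0 : S) :=
        congrFun h j
      refine Eq.trans ?_ h1
      simp only [Matrix.vecMul, dotProduct, Matrix.map_apply]
      have h2 : ∀ i, ((w i).sum fun s r => u s * φ r) = ∑ s ∈ T, u s * φ (w i s) := by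
        intro i
        apply Finsupp.sum_of_support_subset _ _ _ (fun s _ => by rw [map_zero, mul_zero])
        intro s hs
        exact Finset.mem_biUnion.2 ⟨i, Finset.mem_univ i, hs⟩
      simp only [h2, Finset.sum_mul, map_sum, Finset.mul_sum, map_mul]
      rw [Finset.sum_comm]
      simp only [mul_assoc]
    have := hu.indep W hW
    have h3 := DFunLike.congr_fun this s
    exact h3
  have key2 : ∀ (v : ι → S), v ᵥ* A.map φ = 0 →
      ∃ (T : Finset σ) (w : σ → ι → R), (∀ s, w s ᵥ* A = 0) ∧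
        v = fun i => ∑ s ∈ T, u s * φ (w s i) := by
    intro v hv
    choose w hw using fun i => hu.span (v i)
    have hv' : v = fun i => (w i).sum fun s r => u s * φ r := by
      funext i
      exact (hw i).symm
    refine ⟨Finset.univ.biUnion fun i => (w i).support, fun s i => w i s, ?_, ?_⟩
    · rw [hv'] at hv
      exact key w hv
    · rw [hv']
      funext i
      apply Finsupp.sum_of_support_subset _ _ _ (fun s _ => by rw [map_zero, mul_zero])
      intro s hs
      exact Finset.mem_biUnion.2 ⟨i, Finset.mem_univ i, hs⟩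
  constructor
  · intro hv
    obtain ⟨T, w, hw, rfl⟩ := key2 v hv
    choose y hy using fun s => (h1 (w s)).1 (hw s)
    refine ⟨fun a => ∑ s ∈ T, u s * φ (y s a), ?_⟩
    funext i
    simp only [Matrix.vecMul, dotProduct, Matrix.map_apply, Finset.sum_mul]
    rw [Finset.sum_comm]
    refine Finset.sum_congr rfl fun s _ => ?_
    rw [← congrFun (hy s) i]
    simp only [Matrix.vecMul, dotProduct, map_sum, map_mul, Finset.mul_sum, mul_assoc]
  · rintro ⟨y, rfl⟩
    have h3 : Y * A = 0 := by
      ext1 a j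
      have : (Pi.single a (1 : R) ᵥ* Y) ᵥ* A = 0 := (h1 _).2 ⟨_, rfl⟩
      rw [Matrix.vecMul_vecMul, Matrix.single_one_vecMul] at this
      exact congrFun this j
    rw [Matrix.vecMul_vecMul, ← Matrix.map_mul, h3]
    simp

end flat

section fox

variable {G : Type} [Group G] {k : Type} [DecidableEq k]

/-- an affine map -/
noncomputable def af (γ : GF G k) (b : RR G k) : (RR G k × ℤ) ≃ₗ[ℤ] (RR G k × ℤ) where
  toFun x := (of ℤ _ γ * x.1 + x.2 • b, x.2)
  map_add' x y := by
    apply Prod.ext
    · simp only [Prod.fst_add, Prod.snd_add, mul_add, add_smul]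
      abel
    · rfl
  map_smul' q x := by
    apply Prod.ext
    · simp only [Prod.smul_fst, Prod.smul_snd, smul_add, RingHom.id_apply, smul_eq_mul,
        mul_smul, mul_smul_comm]
    · rfl
  invFun x := (of ℤ _ γ⁻¹ * (x.1 - x.2 • b), x.2)
  left_inv x := by
    apply Prod.ext
    · show of ℤ _ γ⁻¹ * (of ℤ _ γ * x.1 + x.2 • b - x.2 • b) = x.1
      rw [add_sub_cancel_right, ← mul_assoc, ← map_mul, inv_mul_cancel, map_one, one_mul]
    · rfl
  right_inv x := by
    apply Prod.ext
    · show of ℤ _ γ * (of ℤ _ γ⁻¹ * (x.1 - x.2 • b)) + x.2 • b = x.1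
      rw [← mul_assoc, ← map_mul, mul_inv_cancel, map_one, one_mul, sub_add_cancel]
    · rfl

omit [DecidableEq k] in
theorem af_apply (γ : GF G k) (b : RR G k) (x : RR G k × ℤ) :
    af γ b x = (of ℤ _ γ * x.1 + x.2 • b, x.2) := rfl

/-- the homomorphism for `G` -/
noncomputable def afH (G : Type) [Group G] (k : Type) [DecidableEq k] :
    G →* ((RR G k × ℤ) ≃ₗ[ℤ] (RR G k × ℤ)) where
  toFun g := af (inl g) 0
  map_one' := by
    apply LinearEquiv.ext
    intro x
    rw [af_apply, map_one, map_one, one_mul, smul_zero, add_zero]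
    rfl
  map_mul' a b := by
    apply LinearEquiv.ext
    intro x
    rw [LinearEquiv.mul_apply, af_apply, af_apply, af_apply]
    simp only [smul_zero, add_zero, map_mul, mul_assoc]

/-- the representation -/
noncomputable def rho (i : k) : GF G k →* ((RR G k × ℤ) ≃ₗ[ℤ] (RR G k × ℤ)) :=
  Monoid.Coprod.lift (afH G k) (FreeGroup.lift fun j => af (yy G j) (if j = i then 1 else 0))

theorem rho_inl (i : k) (g : G) (x : RR G k × ℤ) :
    rho i (inl g) x = (of ℤ _ (inl g : GF G k) * x.1 + x.2 • 0, x.2) := by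
  unfold rho
  rw [Monoid.Coprod.lift_apply_inl]
  rfl

theorem rho_yy (i j : k) (x : RR G k × ℤ) :
    rho i (yy G j) x = (of ℤ _ (yy G j) * x.1 + x.2 • (if j = i then 1 else 0), x.2) := by
  unfold rho yy
  rw [Monoid.Coprod.lift_apply_inr, FreeGroup.lift_apply_of]
  rfl

theorem rho_ex (i : k) (γ : GF G k) : ∃ b : RR G k, ∀ x : RR G k × ℤ,
    rho i γ x = (of ℤ _ γ * x.1 + x.2 • b, x.2) := by
  have hmul : ∀ a c : GF G k,
      (∃ b : RR G k, ∀ x : RR G k × ℤ, rho i a x = (of ℤ _ a * x.1 + x.2 • b, x.2)) →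
      (∃ b : RR G k, ∀ x : RR G k × ℤ, rho i c x = (of ℤ _ c * x.1 + x.2 • b, x.2)) →
      ∃ b : RR G k, ∀ x : RR G k × ℤ, rho i (a * c) x = (of ℤ _ (a * c) * x.1 + x.2 • b, x.2) := by
    rintro a c ⟨b, hb⟩ ⟨b', hb'⟩
    refine ⟨of ℤ _ a * b' + b, fun x => ?_⟩
    rw [map_mul, LinearEquiv.mul_apply, hb', hb]
    apply Prod.ext
    · simp only [mul_add, smul_add, map_mul, mul_assoc, mul_smul_comm, add_assoc]
    · rfl
  have hinv : ∀ a : GF G k,
      (∃ b : RR G k, ∀ x : RR G k × ℤ, rho i a x = (of ℤ _ a * x.1 + x.2 • b, x.2)) →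
      ∃ b : RR G k, ∀ x : RR G k × ℤ, rho i a⁻¹ x = (of ℤ _ a⁻¹ * x.1 + x.2 • b, x.2) := by
    rintro a ⟨b, hb⟩
    refine ⟨-(of ℤ _ a⁻¹ * b), fun x => ?_⟩
    have h1 : rho i a (of ℤ _ a⁻¹ * x.1 + x.2 • -(of ℤ _ a⁻¹ * b), x.2) = x := by
      rw [hb]
      apply Prod.ext
      · simp only [mul_add, smul_neg, mul_neg, mul_smul_comm, ← mul_assoc, ← map_mul,
          mul_inv_cancel, map_one, one_mul]
        abel
      · rfl
    conv_lhs => rw [← h1]
    rw [map_inv, ← LinearEquiv.mul_apply, inv_mul_cancel]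
    rfl
  induction γ using Monoid.Coprod.induction_on with
  | inl g => exact ⟨0, fun x => rho_inl i g x⟩
  | inr z =>
    induction z using FreeGroup.induction_on with
    | C1 =>
      refine ⟨0, fun x => ?_⟩
      rw [map_one, map_one, map_one, one_mul, smul_zero, add_zero]
      rfl
    | of j => exact ⟨_, fun x => rho_yy i j x⟩
    | inv_of j _ =>
      rw [map_inv]
      exact hinv _ ⟨_, fun x => rho_yy i j x⟩
    | mul a b ha hb =>
      rw [map_mul]
      exact hmul _ _ ha hb
  | mul a b ha hb => exact hmul a b ha hb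

/-- the action of the group ring -/
noncomputable def actF (i : k) : RR G k →+* Module.End ℤ (RR G k × ℤ) :=
  (MonoidAlgebra.lift ℤ (Module.End ℤ (RR G k × ℤ)) (GF G k)
    ((LinearEquiv.automorphismGroup.toLinearMapMonoidHom).comp (rho i))).toRingHom

theorem actF_of (i : k) (γ : GF G k) (x : RR G k × ℤ) :
    actF i (of ℤ _ γ) x = rho i γ x := by
  unfold actF
  have := MonoidAlgebra.lift_of (R := ℤ)
    ((LinearEquiv.automorphismGroup.toLinearMapMonoidHom).comp (rho (G := G) i)) γ
  exact congrArg (fun f : Module.End ℤ (RR G k × ℤ) => f x) this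

/-- the Fox derivative -/
noncomputable def DD (i : k) : RR G k →+ RR G k where
  toFun r := (actF i r (0, 1)).1
  map_zero' := by rw [map_zero]; rfl
  map_add' a b := by rw [map_add]; rfl

theorem DD_apply (i : k) (r : RR G k) : DD i r = (actF i r (0, 1)).1 := rfl

theorem actF_apply (i : k) (r : RR G k) (x : RR G k × ℤ) :
    actF i r x = (r * x.1 + x.2 • DD i r, aug (GF G k) r * x.2) := by
  refine MonoidAlgebra.induction_on
    (motive := fun r => actF i r x = (r * x.1 + x.2 • DD i r, aug (GF G k) r * x.2)) r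
    (fun γ => ?_) (fun a b ha hb => ?_) (fun m a ha => ?_)
  · obtain ⟨b, hb⟩ := rho_ex i γ
    have h1 : DD i (of ℤ _ γ) = b := by
      rw [DD_apply, actF_of, hb]
      simp
    rw [actF_of, hb, h1]
    have h2 : aug (GF G k) (of ℤ _ γ) = 1 := aug_uu γ
    rw [h2, one_mul]
  · rw [map_add, LinearMap.add_apply, ha, hb, map_add, map_add]
    apply Prod.ext
    · simp only [Prod.mk_add_mk, add_mul, smul_add]
      abel
    · simp only [Prod.mk_add_mk, add_mul]
  · rw [map_zsmul, LinearMap.smul_apply, ha, map_zsmul, map_zsmul]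
    apply Prod.ext
    · simp only [Prod.smul_mk, smul_add, smul_mul_assoc]
      rw [smul_comm m x.2]
    · simp only [Prod.smul_mk, smul_eq_mul, mul_assoc]

theorem DD_mul (i : k) (r s : RR G k) :
    DD i (r * s) = r * DD i s + aug (GF G k) s • DD i r := by
  rw [DD_apply, map_mul, Module.End.mul_apply, actF_apply i s, actF_apply i r]
  simp

theorem DD_io (i : k) (s : MonoidAlgebra ℤ G) : DD i (io G k s) = 0 := by
  refine MonoidAlgebra.induction_on (motive := fun s => DD i (io G k s) = 0) s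
    (fun g => ?_) (fun a b ha hb => ?_) (fun m a ha => ?_)
  · have h1 : io G k (of ℤ G g) = of ℤ _ (inl g : GF G k) := io_uu g
    rw [h1, DD_apply, actF_of, rho_inl]
    simp
  · rw [map_add, map_add, ha, hb, add_zero]
  · rw [map_zsmul, map_zsmul, ha, smul_zero]

theorem DD_mul_io (i : k) (r : RR G k) (s : MonoidAlgebra ℤ G) :
    DD i (r * io G k s) = aug (GF G k) (io G k s) • DD i r := by
  rw [DD_mul, DD_io, mul_zero, zero_add]

theorem DD_yy (i j : k) (r : RR G k) :
    DD i (r * (of ℤ _ (yy G j) - 1)) = if j = i then r else 0 := by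
  have h1 : aug (GF G k) (of ℤ _ (yy G j) - 1) = 0 := by
    rw [map_sub, map_one]
    have : aug (GF G k) (of ℤ _ (yy G j)) = 1 := aug_uu _
    rw [this, sub_self]
  have h2 : DD i (1 : RR G k) = 0 := by
    have := DD_io (G := G) i 1
    rwa [map_one] at this
  rw [DD_mul, h1, zero_smul, add_zero, map_sub, h2, sub_zero, DD_apply, actF_of, rho_yy]
  by_cases h : j = i
  · simp [h]
  · simp [h]

omit [DecidableEq k] in
theorem aug_io (s : MonoidAlgebra ℤ G) : aug (GF G k) (io G k s) = aug G s := by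
  refine MonoidAlgebra.induction_on (motive := fun s => aug (GF G k) (io G k s) = aug G s) s
    (fun g => ?_) (fun a b ha hb => ?_) (fun m a ha => ?_)
  · have h1 : io G k (of ℤ G g) = of ℤ _ (inl g : GF G k) := io_uu g
    have h2 : aug (GF G k) (of ℤ _ (inl g : GF G k)) = 1 := aug_uu _
    have h3 : aug G (of ℤ G g) = 1 := aug_uu _
    rw [h1, h2, h3]
  · rw [map_add, map_add, map_add, ha, hb]
  · rw [map_zsmul, map_zsmul, map_zsmul, ha]

end fox

end Pool.Agent.U674.FP
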