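import Pool.Agent.U674.FP.Syz

/-!
# Groups of type FP and of type FF, and the stable freeness of projective syzygies
-/

set_option autoImplicit false

namespace Pool.Agent.U674.FP

open Matrix TH57.FF
open Pool.Agent.U674.TI (SF aug uu aug_uu)

/-- `G` is of type FP: the trivial module `ℤ` has a resolution of finite length by finitely generated
projective `ℤG`-modules. -/
def FPType (G : Type) [Group G] : Prop :=
  ∃ (P : ℕ → Type) (_ : ∀ i, AddCommGroup (P i)) (_ : ∀ i, Module (MonoidAlgebra ℤ G) (P i))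
    (d : ∀ i, P (i + 1) →ₗ[MonoidAlgebra ℤ G] P i) (ε : P 0 →+ ℤ) (n : ℕ),
    (∀ i, Module.Finite (MonoidAlgebra ℤ G) (P i)) ∧
    (∀ i, Module.Projective (MonoidAlgebra ℤ G) (P i)) ∧
    (∀ i, n < i → Subsingleton (P i)) ∧
    (∀ (g : G) (x : P 0), ε (MonoidAlgebra.of ℤ G g • x) = ε x) ∧
    Function.Surjective ε ∧
    (∀ x : P 0, ε x = 0 ↔ x ∈ LinearMap.range (d 0)) ∧
    (∀ i, LinearMap.range (d (i + 1)) = LinearMap.ker (d i))

/-- `G` is of type FF: the trivial module `ℤ` has a resolution of finite length by finitely generated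
free `ℤG`-modules. -/
def FFType (G : Type) [Group G] : Prop :=
  ∃ (P : ℕ → Type) (_ : ∀ i, AddCommGroup (P i)) (_ : ∀ i, Module (MonoidAlgebra ℤ G) (P i))
    (d : ∀ i, P (i + 1) →ₗ[MonoidAlgebra ℤ G] P i) (ε : P 0 →+ ℤ) (n : ℕ),
    (∀ i, Module.Finite (MonoidAlgebra ℤ G) (P i)) ∧
    (∀ i, Module.Free (MonoidAlgebra ℤ G) (P i)) ∧
    (∀ i, n < i → Subsingleton (P i)) ∧
    (∀ (g : G) (x : P 0), ε (MonoidAlgebra.of ℤ G g • x) = ε x) ∧
    Function.Surjective ε ∧
    (∀ x : P 0, ε x = 0 ↔ x ∈ LinearMap.range (d 0)) ∧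
    (∀ i, LinearMap.range (d (i + 1)) = LinearMap.ker (d i))

/-- the integers with the trivial action of `G` -/
def Tz (_G : Type) : Type := ℤ

variable {G : Type} [Group G]

instance : AddCommGroup (Tz G) := inferInstanceAs (AddCommGroup ℤ)

noncomputable instance : Module (MonoidAlgebra ℤ G) (Tz G) :=
  (Module.compHom ℤ (aug G) : Module (MonoidAlgebra ℤ G) ℤ)

theorem of_smul_Tz (g : G) (z : Tz G) : MonoidAlgebra.of ℤ G g • z = z := by
  change @HMul.hMul ℤ ℤ ℤ _ (aug G (uu g)) z = z
  rw [aug_uu]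
  exact one_mul (show ℤ from z)

/-- an invariant homomorphism to the integers as a linear map -/
noncomputable def toTz {M : Type} [AddCommGroup M] [Module (MonoidAlgebra ℤ G) M] (ε : M →+ ℤ)
    (h : ∀ (g : G) (x : M), ε (MonoidAlgebra.of ℤ G g • x) = ε x) :
    M →ₗ[MonoidAlgebra ℤ G] Tz G where
  toFun x := (ε x : ℤ)
  map_add' := ε.map_add
  map_smul' r x := by
    change ε (r • x) = aug G r * ε x
    induction r using MonoidAlgebra.induction_linear with
    | zero => rw [zero_smul, map_zero, map_zero, zero_mul]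
    | add a b ha hb => rw [add_smul, map_add, map_add, ha, hb, add_mul]
    | single g z =>
      have h1 : (MonoidAlgebra.single g z : MonoidAlgebra ℤ G) = z • MonoidAlgebra.of ℤ G g := by
        rw [MonoidAlgebra.of_apply, MonoidAlgebra.smul_single, smul_eq_mul, mul_one]
      have h2 : aug G (MonoidAlgebra.single g z) = z := by
        rw [h1, map_zsmul, show MonoidAlgebra.of ℤ G g = uu g from rfl, aug_uu, smul_eq_mul,
          mul_one]
      rw [h2, h1, smul_assoc, map_zsmul, h, smul_eq_mul]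

theorem toTz_apply {M : Type} [AddCommGroup M] [Module (MonoidAlgebra ℤ G) M] (ε : M →+ ℤ)
    (h : ∀ (g : G) (x : M), ε (MonoidAlgebra.of ℤ G g • x) = ε x) (x : M) :
    toTz ε h x = (ε x : ℤ) := rfl

theorem PP_of_FPType (h : FPType G) : ∃ n, PP (MonoidAlgebra ℤ G) (n + 1) (Tz G) := by
  obtain ⟨P, i1, i2, d, ε, n, g1, g2, g3, g4, g5, g6, g7⟩ := h
  have claim : ∀ j i, n ≤ i + j → PP (MonoidAlgebra ℤ G) j (LinearMap.range (d i)) := by
    intro j
    induction j with
    | zero =>
      intro i hi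
      have := g3 (i + 1) (by omega)
      have h1 : Subsingleton (LinearMap.range (d i)) := by
        refine ⟨?_⟩
        rintro ⟨_, x, rfl⟩ ⟨_, y, rfl⟩
        rw [Subsingleton.elim x y]
      exact ⟨inferInstance, inferInstance⟩
    | succ j ih =>
      intro i hi
      refine ⟨P (i + 1), i1 _, i2 _, (d i).rangeRestrict, g1 _, g2 _,
        LinearMap.surjective_rangeRestrict _, ?_⟩
      have h1 : LinearMap.ker (d i).rangeRestrict = LinearMap.range (d (i + 1)) := by
        rw [LinearMap.ker_rangeRestrict, g7]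
      rw [h1]
      exact ih (i + 1) (by omega)
  refine ⟨n, P 0, i1 _, i2 _, toTz ε g4, g1 _, g2 _, g5, ?_⟩
  have h1 : LinearMap.ker (toTz ε g4) = LinearMap.range (d 0) := by
    ext x
    exact g6 x
  rw [h1]
  exact claim n 0 (by omega)

theorem FFR_of_FFType (h : FFType G) : FFR (MonoidAlgebra ℤ G) (Tz G) := by
  obtain ⟨P, i1, i2, d, ε, n, g1, g2, g3, g4, g5, g6, g7⟩ := h
  have step : ∀ (i : ℕ) (M : Type) [AddCommGroup M] [Module (MonoidAlgebra ℤ G) M]
      (f : P i →ₗ[MonoidAlgebra ℤ G] M) (_ : Function.Surjective f) (j : ℕ)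
      (_ : FR (MonoidAlgebra ℤ G) j (LinearMap.ker f)), FR (MonoidAlgebra ℤ G) (j + 1) M := by
    intro i M _ _ f hf j hj
    have h1 := g1 i
    have h2 := g2 i
    let e := (Module.Free.chooseBasis (MonoidAlgebra ℤ G) (P i)).equivFun
    refine ⟨_, inferInstance, f ∘ₗ e.symm.toLinearMap, hf.comp e.symm.surjective, ?_⟩
    refine FR_equiv j ?_ hj
    exact mkE
      (LinearMap.codRestrict _ (e.toLinearMap ∘ₗ (LinearMap.ker f).subtype) (fun x => by
        have h3 : f x.1 = 0 := x.2
        simp [h3]))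
      (LinearMap.codRestrict (LinearMap.ker f) (e.symm.toLinearMap ∘ₗ
        (LinearMap.ker (f ∘ₗ e.symm.toLinearMap)).subtype) (fun x => x.2))
      (fun x => by
        apply Subtype.ext
        simp)
      (fun x => by
        apply Subtype.ext
        simp)
  have claim : ∀ j i, n ≤ i + j → FR (MonoidAlgebra ℤ G) j (LinearMap.range (d i)) := by
    intro j
    induction j with
    | zero =>
      intro i hi
      have := g3 (i + 1) (by omega)
      have h1 : Subsingleton (LinearMap.range (d i)) := by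
        refine ⟨?_⟩
        rintro ⟨_, x, rfl⟩ ⟨_, y, rfl⟩
        rw [Subsingleton.elim x y]
      exact ⟨inferInstance, inferInstance⟩
    | succ j ih =>
      intro i hi
      refine step (i + 1) _ (d i).rangeRestrict (LinearMap.surjective_rangeRestrict _) j ?_
      have h1 : LinearMap.ker (d i).rangeRestrict = LinearMap.range (d (i + 1)) := by
        rw [LinearMap.ker_rangeRestrict, g7]
      rw [h1]
      exact ih (i + 1) (by omega)
  refine ⟨n + 1, step 0 _ (toTz ε g4) g5 n ?_⟩
  have h1 : LinearMap.ker (toTz ε g4) = LinearMap.range (d 0) := by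
    ext x
    exact g6 x
  rw [h1]
  exact claim n 0 (by omega)

/-! ### Boundary matrices -/

theorem Bd_zero {m k : ℕ} {A : Matrix (Fin m) (Fin k) (MonoidAlgebra ℤ G)} (h : Bd G 0 A) :
    ∃ f : (Fin k → MonoidAlgebra ℤ G) →ₗ[MonoidAlgebra ℤ G] Tz G, Function.Surjective f ∧
      LinearMap.ker f = Im A := by
  obtain ⟨ε, h1, h2, h3⟩ := h
  exact ⟨toTz ε h1, h2, by ext x; exact h3 x⟩

theorem Bd_succ {n m k : ℕ} {A : Matrix (Fin m) (Fin k) (MonoidAlgebra ℤ G)}
    (h : Bd G (n + 1) A) : ∃ (l : ℕ) (B : Matrix (Fin k) (Fin l) (MonoidAlgebra ℤ G)),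
      Bd G n B ∧ LinearMap.ker B.vecMulLinear.rangeRestrict = Im A := by
  obtain ⟨l, B, h1, h2⟩ := h
  exact ⟨l, B, h1, by rw [LinearMap.ker_rangeRestrict]; ext x; exact h2 x⟩

theorem FFR_Im : ∀ (n : ℕ) {m k : ℕ} (A : Matrix (Fin m) (Fin k) (MonoidAlgebra ℤ G)),
    Bd G n A → FFR (MonoidAlgebra ℤ G) (Tz G) → FFR (MonoidAlgebra ℤ G) (Im A)
  | 0, m, k, A, h, h0 => by
    obtain ⟨f, h1, h2⟩ := Bd_zero h
    rw [← h2]
    exact FFR.ker h0 f h1
  | n + 1, m, k, A, h, h0 => by
    obtain ⟨l, B, h1, h2⟩ := Bd_succ h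
    rw [← h2]
    exact FFR.ker (FFR_Im n B h1 h0) _ (LinearMap.surjective_rangeRestrict _)

theorem PP_of_Bd : ∀ (n : ℕ) {m k : ℕ} (A : Matrix (Fin m) (Fin k) (MonoidAlgebra ℤ G)),
    Bd G n A → ∀ j, PP (MonoidAlgebra ℤ G) j (Im A) → PP (MonoidAlgebra ℤ G) (j + n + 1) (Tz G)
  | 0, m, k, A, h, j, h0 => by
    obtain ⟨f, h1, h2⟩ := Bd_zero h
    refine ⟨_, inferInstance, inferInstance, f, inferInstance, inferInstance, h1, ?_⟩
    rw [h2]
    exact h0
  | n + 1, m, k, A, h, j, h0 => by
    obtain ⟨l, B, h1, h2⟩ := Bd_succ h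
    have h3 := PP_of_Bd n B h1 (j + 1) (by
      refine ⟨_, inferInstance, inferInstance, B.vecMulLinear.rangeRestrict, inferInstance,
        inferInstance, LinearMap.surjective_rangeRestrict _, ?_⟩
      rw [h2]
      exact h0)
    have h4 : j + 1 + n + 1 = j + (n + 1) + 1 := by ring
    rwa [h4] at h3

/-- a projective resolution as a sequence -/
theorem seq_of_PP {R : Type} [Ring R] : ∀ (n : ℕ) (M : Type) [AddCommGroup M] [Module R M],
    PP R n M →
    ∃ (P : ℕ → Type) (_ : ∀ i, AddCommGroup (P i)) (_ : ∀ i, Module R (P i))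
      (d : ∀ i, P (i + 1) →ₗ[R] P i) (ε : P 0 →ₗ[R] M),
      (∀ i, Module.Finite R (P i)) ∧ (∀ i, Module.Projective R (P i)) ∧
      (∀ i, n < i → Subsingleton (P i)) ∧ Function.Surjective ε ∧
      (∀ x : P 0, ε x = 0 ↔ x ∈ LinearMap.range (d 0)) ∧
      (∀ i, LinearMap.range (d (i + 1)) = LinearMap.ker (d i))
  | 0, M, _, _, h => by
    obtain ⟨h1, h2⟩ := h
    let P : ℕ → Type := fun i => match i with
      | 0 => M
      | _ + 1 => PUnit
    let iA : ∀ i, AddCommGroup (P i) := fun i => match i with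
      | 0 => (inferInstance : AddCommGroup M)
      | _ + 1 => (inferInstance : AddCommGroup PUnit)
    let iM : ∀ i, Module R (P i) := fun i => match i with
      | 0 => (inferInstance : Module R M)
      | _ + 1 => (inferInstance : Module R PUnit)
    refine ⟨P, iA, iM, fun i => 0, LinearMap.id, ?_, ?_, ?_, Function.surjective_id, ?_, ?_⟩
    · intro i
      match i with
      | 0 => exact h1
      | i + 1 => exact (inferInstance : Module.Finite R PUnit)
    · intro i
      match i with
      | 0 => exact h2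
      | i + 1 => exact (inferInstance : Module.Projective R PUnit)
    · intro i hi
      match i with
      | 0 => exact absurd hi (lt_irrefl _)
      | i + 1 => exact (inferInstance : Subsingleton PUnit)
    · intro x
      rw [LinearMap.range_zero, Submodule.mem_bot]
      rfl
    · intro i
      rw [LinearMap.range_zero, LinearMap.ker_zero]
      have : Subsingleton (P (i + 1)) := (inferInstance : Subsingleton PUnit)
      ext x
      simp [Subsingleton.elim x 0]
  | n + 1, M, _, _, h => by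
    obtain ⟨Q, i1, i2, f, q1, q2, hf, h1⟩ := h
    obtain ⟨P', iA', iM', d', ε', g1, g2, g3, g4, g5, g6⟩ := seq_of_PP n _ h1
    let P : ℕ → Type := fun i => match i with
      | 0 => Q
      | i + 1 => P' i
    let iA : ∀ i, AddCommGroup (P i) := fun i => match i with
      | 0 => i1
      | i + 1 => iA' i
    let iM : ∀ i, Module R (P i) := fun i => match i with
      | 0 => i2
      | i + 1 => iM' i
    let d : ∀ i, P (i + 1) →ₗ[R] P i := fun i => match i with
      | 0 => (LinearMap.ker f).subtype ∘ₗ ε'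
      | i + 1 => d' i
    refine ⟨P, iA, iM, d, f, ?_, ?_, ?_, hf, ?_, ?_⟩
    · intro i
      match i with
      | 0 => exact q1
      | i + 1 => exact g1 i
    · intro i
      match i with
      | 0 => exact q2
      | i + 1 => exact g2 i
    · intro i hi
      match i with
      | 0 => exact absurd hi (by omega)
      | i + 1 => exact g3 i (by omega)
    · intro x
      change f x = 0 ↔ x ∈ LinearMap.range ((LinearMap.ker f).subtype ∘ₗ ε')
      rw [LinearMap.range_comp, LinearMap.range_eq_top.2 g4, Submodule.map_top,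
        Submodule.range_subtype]
      rfl
    · intro i
      match i with
      | 0 =>
        change LinearMap.range (d' 0) = LinearMap.ker ((LinearMap.ker f).subtype ∘ₗ ε')
        rw [LinearMap.ker_comp, Submodule.ker_subtype]
        ext x
        rw [← g5]
        rfl
      | i + 1 => exact g6 i

/-- groups with a partial free resolution and a projective syzygy are of type FP -/
theorem FPType_of_Bd {n m k : ℕ} (A : Matrix (Fin m) (Fin k) (MonoidAlgebra ℤ G))
    (h : Bd G n A) (hA : Module.Projective (MonoidAlgebra ℤ G) (Im A)) : FPType G := by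
  have h1 := PP_of_Bd n A h 0 ⟨inferInstance, hA⟩
  obtain ⟨P, iA, iM, d, ε, g1, g2, g3, g4, g5, g6⟩ := seq_of_PP _ _ h1
  refine ⟨P, iA, iM, d, (show P 0 →+ ℤ from ε.toAddMonoidHom), _, g1, g2, g3, ?_, g4, g5, g6⟩
  intro g x
  change (ε (MonoidAlgebra.of ℤ G g • x) : Tz G) = ε x
  rw [map_smul, of_smul_Tz]

/-- a projective syzygy of the trivial module is stably free if and only if the group is of type FF -/
theorem FFType_iff {n m k : ℕ} (A : Matrix (Fin m) (Fin k) (MonoidAlgebra ℤ G))
    (h : Bd G n A) (hA : Module.Projective (MonoidAlgebra ℤ G) (Im A)) :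
    FFType G ↔ SF (MonoidAlgebra ℤ G) (Im A) := by
  constructor
  · intro h1
    obtain ⟨j, h2⟩ := FFR_Im n A h (FFR_of_FFType h1)
    exact SF_of_FR j _ h2 hA
  · intro h1
    obtain ⟨P, iA, iM, d, ε, g1, g2, g3, g4, g5, g6, g7⟩ := FFle_of_FR n A h 1 (FR_of_SF h1)
    exact ⟨P, iA, iM, d, ε, _, g1, g2, g3, g4, g5, g6, g7⟩

/-- a partial free resolution with a projective syzygy -/
theorem exists_Bd : ∀ (n i : ℕ) {k : ℕ}
    (K : Submodule (MonoidAlgebra ℤ G) (Fin k → MonoidAlgebra ℤ G)),
    PR (MonoidAlgebra ℤ G) n K →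
    (∀ (m : ℕ) (A : Matrix (Fin m) (Fin k) (MonoidAlgebra ℤ G)), Im A = K → Bd G i A) →
    ∃ (m k' : ℕ) (A : Matrix (Fin m) (Fin k') (MonoidAlgebra ℤ G)), Bd G (n + i) A ∧
      Module.Projective (MonoidAlgebra ℤ G) (Im A)
  | 0, i, k, K, h, hB => by
    obtain ⟨h1, h2⟩ := h
    obtain ⟨m, p, s, hps⟩ := exists_split h1 h2
    have h3 : Im (K.subtype ∘ₗ p).toMatrixRight' = K := by
      have h4 : (K.subtype ∘ₗ p).toMatrixRight'.vecMulLinear = K.subtype ∘ₗ p :=
        LinearEquiv.symm_apply_apply (LinearMap.toMatrixRight' (R := MonoidAlgebra ℤ G)) _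
      unfold Im
      rw [h4, LinearMap.range_comp, LinearMap.range_eq_top.2 (fun x => ⟨s x, hps x⟩),
        Submodule.map_top, Submodule.range_subtype]
    refine ⟨m, k, (K.subtype ∘ₗ p).toMatrixRight', ?_, ?_⟩
    · rw [zero_add]
      exact hB m _ h3
    · rw [h3]
      exact h2
  | n + 1, i, k, K, h, hB => by
    obtain ⟨m, p, hp, h1⟩ := h
    have h4 : (K.subtype ∘ₗ p).toMatrixRight'.vecMulLinear = K.subtype ∘ₗ p :=
      LinearEquiv.symm_apply_apply (LinearMap.toMatrixRight' (R := MonoidAlgebra ℤ G)) _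
    have h3 : Im (K.subtype ∘ₗ p).toMatrixRight' = K := by
      unfold Im
      rw [h4, LinearMap.range_comp, LinearMap.range_eq_top.2 hp, Submodule.map_top,
        Submodule.range_subtype]
    have h5 := exists_Bd n (i + 1) (LinearMap.ker p) h1 (fun m' A hA => by
      refine ⟨k, _, hB m _ h3, fun x => ?_⟩
      have h6 : x ᵥ* (K.subtype ∘ₗ p).toMatrixRight' = K.subtype (p x) :=
        congrArg (fun g => g x) h4
      rw [h6]
      have h7 : K.subtype (p x) = 0 ↔ x ∈ LinearMap.ker p := by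
        rw [LinearMap.mem_ker]
        exact ⟨fun h => Subtype.ext h, fun h => congrArg Subtype.val h⟩
      rw [h7, ← hA]
      exact Iff.rfl)
    have h8 : n + 1 + i = n + (i + 1) := by ring
    rw [h8]
    exact h5

/-- a group of type FP has a partial free resolution with a projective syzygy -/
theorem Bd_of_FPType (h : FPType G) : ∃ (n m k : ℕ)
    (A : Matrix (Fin m) (Fin k) (MonoidAlgebra ℤ G)), Bd G (n + 2) A ∧
      Module.Projective (MonoidAlgebra ℤ G) (Im A) := by
  obtain ⟨n, h1⟩ := PP_of_FPType h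
  obtain ⟨k, p, hp, h2⟩ := PR_of_PP _ _ h1
  have h3 := PR_add n 2 _ h2
  obtain ⟨m, k', A, h4, h5⟩ := exists_Bd (n + 2) 0 (LinearMap.ker p) h3 (fun m A hA => by
    refine ⟨(show (Fin k → MonoidAlgebra ℤ G) →+ ℤ from p.toAddMonoidHom), ?_, hp, ?_⟩
    · intro g x
      change (p (MonoidAlgebra.of ℤ G g • x) : Tz G) = p x
      rw [map_smul, of_smul_Tz]
    · intro x
      have h6 : x ∈ LinearMap.ker p ↔ x ∈ Im A := by rw [hA]
      exact h6)
  exact ⟨n, m, k', A, h4, h5⟩

end Pool.Agent.U674.FP
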