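import Pool.Agent.U674.FP.Split

/-!
# Groups of type FP with a resolution of bounded length
-/

set_option autoImplicit false

namespace Pool.Agent.U674.FP

open Matrix TH57.FF MonoidAlgebra Monoid.Coprod
open Pool.Agent.U674.TI

/-- `FPLen G n`: the trivial module `ℤ` has a resolution of length at most `n` by finitely generated
projective `ℤG`-modules. -/
def FPLen (G : Type) [Group G] (n : ℕ) : Prop :=
  ∃ (P : ℕ → Type) (_ : ∀ i, AddCommGroup (P i)) (_ : ∀ i, Module (MonoidAlgebra ℤ G) (P i))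
    (d : ∀ i, P (i + 1) →ₗ[MonoidAlgebra ℤ G] P i) (ε : P 0 →+ ℤ),
    (∀ i, Module.Finite (MonoidAlgebra ℤ G) (P i)) ∧
    (∀ i, Module.Projective (MonoidAlgebra ℤ G) (P i)) ∧
    (∀ i, n < i → Subsingleton (P i)) ∧
    (∀ (g : G) (x : P 0), ε (MonoidAlgebra.of ℤ G g • x) = ε x) ∧
    Function.Surjective ε ∧
    (∀ x : P 0, ε x = 0 ↔ x ∈ LinearMap.range (d 0)) ∧
    (∀ i, LinearMap.range (d (i + 1)) = LinearMap.ker (d i))

variable {G : Type} [Group G]

theorem FPType_iff : FPType G ↔ ∃ n, FPLen G n := by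
  constructor
  · rintro ⟨P, i1, i2, d, ε, n, h⟩
    exact ⟨n, P, i1, i2, d, ε, h⟩
  · rintro ⟨n, P, i1, i2, d, ε, h⟩
    exact ⟨P, i1, i2, d, ε, n, h⟩

theorem FPLen_mono {n m : ℕ} (hnm : n ≤ m) (h : FPLen G n) : FPLen G m := by
  obtain ⟨P, i1, i2, d, ε, g1, g2, g3, g⟩ := h
  exact ⟨P, i1, i2, d, ε, g1, g2, fun i hi => g3 i (by omega), g⟩

theorem PP_of_FPLen {n : ℕ} (h : FPLen G (n + 1)) : PP (MonoidAlgebra ℤ G) (n + 1) (Tz G) := by
  obtain ⟨P, i1, i2, d, ε, g1, g2, g3, g4, g5, g6, g7⟩ := h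
  have claim : ∀ j i, n ≤ i + j → PP (MonoidAlgebra ℤ G) j (LinearMap.range (d i)) := by
    intro j
    induction j with
    | zero =>
      intro i hi
      have hs := g3 (i + 2) (by omega)
      have h0 : LinearMap.ker (d i) = ⊥ := by
        rw [← g7, LinearMap.range_eq_bot]
        apply LinearMap.ext
        intro x
        rw [Subsingleton.elim x 0, map_zero, map_zero]
      have e : P (i + 1) ≃ₗ[MonoidAlgebra ℤ G] LinearMap.range (d i) :=
        LinearEquiv.ofInjective (d i) (LinearMap.ker_eq_bot.1 h0)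
      have h1 := g1 (i + 1)
      have h2 := g2 (i + 1)
      exact ⟨Module.Finite.equiv e, Module.Projective.of_equiv e⟩
    | succ j ih =>
      intro i hi
      refine ⟨P (i + 1), i1 _, i2 _, (d i).rangeRestrict, g1 _, g2 _,
        LinearMap.surjective_rangeRestrict _, ?_⟩
      have h1 : LinearMap.ker (d i).rangeRestrict = LinearMap.range (d (i + 1)) := by
        rw [LinearMap.ker_rangeRestrict, g7]
      rw [h1]
      exact ih (i + 1) (by omega)
  refine ⟨P 0, i1 _, i2 _, toTz ε g4, g1 _, g2 _, g5, ?_⟩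
  have h1 : LinearMap.ker (toTz ε g4) = LinearMap.range (d 0) := by
    ext x
    exact g6 x
  rw [h1]
  exact claim n 0 (by omega)

/-- a group of type FP has a partial free resolution with a projective syzygy -/
theorem Bd_of_FPLen {n : ℕ} (h : FPLen G (n + 1)) : ∃ (m k : ℕ)
    (A : Matrix (Fin m) (Fin k) (MonoidAlgebra ℤ G)), Bd G n A ∧
      Module.Projective (MonoidAlgebra ℤ G) (Im A) := by
  obtain ⟨k, p, hp, h3⟩ := PR_of_PP _ _ (PP_of_FPLen h)
  exact exists_Bd n 0 (LinearMap.ker p) h3 (fun m A hA => by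
    refine ⟨(show (Fin k → MonoidAlgebra ℤ G) →+ ℤ from p.toAddMonoidHom), ?_, hp, ?_⟩
    · intro g x
      change (p (MonoidAlgebra.of ℤ G g • x) : Tz G) = p x
      rw [map_smul, of_smul_Tz]
    · intro x
      have h6 : x ∈ LinearMap.ker p ↔ x ∈ Im A := by rw [hA]
      exact h6)

/-- groups with a partial free resolution and a projective syzygy are of type FP -/
theorem FPLen_of_Bd {n m k : ℕ} (A : Matrix (Fin m) (Fin k) (MonoidAlgebra ℤ G))
    (h : Bd G n A) (hA : Module.Projective (MonoidAlgebra ℤ G) (Im A)) : FPLen G (n + 1) := by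
  have h1 := PP_of_Bd n A h 0 ⟨inferInstance, hA⟩
  rw [zero_add] at h1
  obtain ⟨P, iA, iM, d, ε, g1, g2, g3, g4, g5, g6⟩ := seq_of_PP _ _ h1
  refine ⟨P, iA, iM, d, (show P 0 →+ ℤ from ε.toAddMonoidHom), g1, g2, g3, ?_, g4, g5, g6⟩
  intro g x
  change (ε (MonoidAlgebra.of ℤ G g • x) : Tz G) = ε x
  rw [map_smul, of_smul_Tz]

/-- a stably free syzygy gives a free resolution of the same length -/
theorem FFle_of_SF {n m k : ℕ} (A : Matrix (Fin m) (Fin k) (MonoidAlgebra ℤ G))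
    (h : Bd G (n + 1) A) (hA : SF (MonoidAlgebra ℤ G) (Im A)) : FFle G (n + 2) := by
  obtain ⟨a, b, ⟨e⟩⟩ := hA
  obtain ⟨f⟩ := Im_dgm (q := a) A
  have h1 : FR (MonoidAlgebra ℤ G) 0 (Im (dgm A a)) :=
    FR_equiv 0 (e.symm.trans f) ⟨inferInstance, inferInstance⟩
  have h2 := FFle_of_FR (n + 1) (dgm A a) (Bd_dgm n A a h) 0 h1
  rwa [zero_add] at h2

theorem FFType_of_FFle {n : ℕ} (h : FFle G n) : FFType G := by
  obtain ⟨P, i1, i2, d, ε, h⟩ := h
  exact ⟨P, i1, i2, d, ε, n, h⟩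

/-- the main theorem -/
theorem main {n : ℕ} (h : FPLen G (n + 3)) : ∃ (m : ℕ) (p q r : ℕ)
    (A : Matrix (Fin p) (Fin q) (RR G (Fin m))) (a b : Fin r → GF G (Fin m)),
    Bd (GF G (Fin m)) (n + 2) A ∧ Nonempty (↥(triIdeal a b) ≃ₗ[RR G (Fin m)] Im A) ∧
    Module.Projective (RR G (Fin m)) (triIdeal a b) ∧
    (FFType G ↔ SF (RR G (Fin m)) (triIdeal a b)) := by
  obtain ⟨m₀, k₀, A, hB, hA⟩ := Bd_of_FPLen h
  obtain ⟨E, hE, ⟨e0⟩, he⟩ := exists_split_io A hA
  obtain ⟨m, q, r, hm⟩ := main1 E hE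
  obtain ⟨a, b, ⟨f⟩⟩ := hm (Fin m) id Function.injective_id
  obtain ⟨e1⟩ := he m
  have hE' := io_idem (k := Fin m) E hE
  have hpr := rowSp_projective (E.map (io G (Fin m))) hE'
  obtain ⟨g⟩ := Im_dgm (q := q) (A.map (io G (Fin m)))
  refine ⟨m, _, _, r, dgm (A.map (io G (Fin m))) q, a, b, Bd_dgm _ _ _ (BdS m n A hB),
    ⟨(f.trans (LinearEquiv.prodCongr e1 (LinearEquiv.refl _ _))).trans g⟩,
    Module.Projective.of_equiv f.symm, ?_⟩
  have h4 : SF (RR G (Fin m)) (triIdeal a b) ↔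
      SF (RR G (Fin m)) (RowSp (E.map (io G (Fin m))) × (Fin q → RR G (Fin m))) :=
    ⟨SF.equiv f, SF.equiv f.symm⟩
  have h5 : SF (MonoidAlgebra ℤ G) (Im A) ↔ SF (MonoidAlgebra ℤ G) (RowSp E) :=
    ⟨SF.equiv e0.symm, SF.equiv e0⟩
  rw [FFType_iff A hB hA, h5, h4, SF.prod_iff, ← idemFree_iff E hE, ← idemFree_iff _ hE',
    idemFree_io]

end Pool.Agent.U674.FP
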