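import Pool.Agent.U674.FP.Fox

/-!
# Partial free resolutions over `G * F` from partial free resolutions over `G`
-/

set_option autoImplicit false

namespace Pool.Agent.U674.FP

open Matrix TH57.FF MonoidAlgebra Monoid.Coprod
open Pool.Agent.U674.TI

variable {G : Type} [Group G] {q : ℕ}

/-- invariant homomorphisms to the integers are linear for the augmentation -/
theorem eps_smul {M : Type} [AddCommGroup M] [Module (MonoidAlgebra ℤ G) M] (ε : M →+ ℤ)
    (h : ∀ (g : G) (x : M), ε (MonoidAlgebra.of ℤ G g • x) = ε x) (r : MonoidAlgebra ℤ G) (x : M) :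
    ε (r • x) = aug G r * ε x :=
  (toTz ε h).map_smul r x

theorem eps_eq {l : ℕ} (ε : (Fin l → MonoidAlgebra ℤ G) →+ ℤ)
    (h : ∀ (g : G) (x : Fin l → MonoidAlgebra ℤ G), ε (MonoidAlgebra.of ℤ G g • x) = ε x)
    (x : Fin l → MonoidAlgebra ℤ G) : ε x = ∑ a, aug G (x a) * ε (Pi.single a 1) := by
  have h1 : x = ∑ a, x a • (Pi.single a 1 : Fin l → MonoidAlgebra ℤ G) := by
    funext j
    simp [Finset.sum_apply, Pi.single_apply]
  conv_lhs => rw [h1]
  rw [map_sum]
  exact Finset.sum_congr rfl fun a _ => eps_smul ε h _ _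

/-- the extended augmentation -/
noncomputable def eG (G : Type) [Group G] (q : ℕ) {l : ℕ} (c : Fin l → ℤ) :
    (Fin l → RR G (Fin q)) →+ ℤ where
  toFun x := ∑ a, aug (GF G (Fin q)) (x a) * c a
  map_zero' := by simp
  map_add' x y := by simp [add_mul, Finset.sum_add_distrib]

theorem eG_apply {l : ℕ} (c : Fin l → ℤ) (x : Fin l → RR G (Fin q)) :
    eG G q c x = ∑ a, aug (GF G (Fin q)) (x a) * c a := rfl

theorem eG_smul {l : ℕ} (c : Fin l → ℤ) (r : RR G (Fin q)) (x : Fin l → RR G (Fin q)) :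
    eG G q c (r • x) = aug (GF G (Fin q)) r * eG G q c x := by
  simp only [eG_apply, Pi.smul_apply, smul_eq_mul, map_mul, Finset.mul_sum, mul_assoc]

/-- the Fox derivative of vectors -/
noncomputable def PsiF (G : Type) [Group G] (q : ℕ) (i : Fin q) {l : ℕ} (c : Fin l → ℤ) :
    (Fin l → RR G (Fin q)) →+ RR G (Fin q) where
  toFun x := ∑ a, c a • DD i (x a)
  map_zero' := by simp
  map_add' x y := by simp [smul_add, Finset.sum_add_distrib]

theorem PsiF_apply (i : Fin q) {l : ℕ} (c : Fin l → ℤ) (x : Fin l → RR G (Fin q)) :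
    PsiF G q i c x = ∑ a, c a • DD i (x a) := rfl

section lvl0

variable {m l : ℕ} (A : Matrix (Fin m) (Fin l) (MonoidAlgebra ℤ G))
  (ε : (Fin l → MonoidAlgebra ℤ G) →+ ℤ)
  (h1 : ∀ (g : G) (x : Fin l → MonoidAlgebra ℤ G), ε (MonoidAlgebra.of ℤ G g • x) = ε x)
  (x0 : Fin l → MonoidAlgebra ℤ G) (h2 : ε x0 = 1)
  (h3 : ∀ x : Fin l → MonoidAlgebra ℤ G, ε x = 0 ↔ ∃ y : Fin m → MonoidAlgebra ℤ G, y ᵥ* A = x)

/-- the rows of the first boundary matrix over `G * F` -/
noncomputable def row0 (q : ℕ) (A : Matrix (Fin m) (Fin l) (MonoidAlgebra ℤ G))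
    (x0 : Fin l → MonoidAlgebra ℤ G) : Matrix (Fin m ⊕ Fin q) (Fin l) (RR G (Fin q)) :=
  fromRows (A.map (io G (Fin q)))
    (Matrix.of fun (j : Fin q) a => (of ℤ _ (yy G j) - 1) * io G (Fin q) (x0 a))

theorem row0_mul (u : Fin m ⊕ Fin q → RR G (Fin q)) :
    u ᵥ* row0 q A x0 = (u ∘ Sum.inl) ᵥ* A.map (io G (Fin q)) +
      fun a => ∑ j, (u (Sum.inr j)) * (of ℤ _ (yy G j) - 1) * io G (Fin q) (x0 a) := by
  unfold row0
  rw [Matrix.vecMul_fromRows]
  congr 1
  funext a
  simp [Matrix.vecMul, dotProduct, mul_assoc]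

include h1 in
theorem eG_io (x : Fin l → MonoidAlgebra ℤ G) :
    eG G q (fun a => ε (Pi.single a 1)) (fun a => io G (Fin q) (x a)) = ε x := by
  rw [eG_apply, eps_eq ε h1 x]
  exact Finset.sum_congr rfl fun a _ => by rw [aug_io]

include h1 h2 h3

theorem lvl0 (x : Fin l → RR G (Fin q)) :
    eG G q (fun a => ε (Pi.single a 1)) x = 0 ↔
      ∃ y : Fin m ⊕ Fin q → RR G (Fin q), y ᵥ* row0 q A x0 = x := by
  classical
  set c : Fin l → ℤ := fun a => ε (Pi.single a 1) with hc
  let W : Submodule (RR G (Fin q)) (Fin l → RR G (Fin q)) :=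
    LinearMap.range (row0 q A x0).vecMulLinear
  have hW : ∀ x, x ∈ W ↔ ∃ y : Fin m ⊕ Fin q → RR G (Fin q), y ᵥ* row0 q A x0 = x :=
    fun x => Iff.rfl
  let X0 : Fin l → RR G (Fin q) := fun a => io G (Fin q) (x0 a)
  -- elements of the kernel
  have hio : ∀ x : Fin l → MonoidAlgebra ℤ G, ε x = 0 →
      (fun a => io G (Fin q) (x a)) ∈ W := by
    intro x hx
    obtain ⟨y, rfl⟩ := (h3 x).1 hx
    rw [hW]
    refine ⟨Sum.elim (fun a => io G (Fin q) (y a)) 0, ?_⟩
    rw [row0_mul]
    funext a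
    simp [Matrix.vecMul, dotProduct, map_sum, map_mul]
  have hy : ∀ j : Fin q, (of ℤ _ (yy G j) - 1 : RR G (Fin q)) • X0 ∈ W := by
    intro j
    rw [hW]
    refine ⟨Sum.elim 0 (Pi.single j 1), ?_⟩
    rw [row0_mul]
    funext a
    have e1 : (Sum.elim (0 : Fin m → RR G (Fin q)) (Pi.single j 1)) ∘ Sum.inl = 0 := rfl
    rw [e1, Matrix.zero_vecMul, zero_add]
    simp only [Sum.elim_inr]
    rw [Finset.sum_eq_single j]
    · simp [X0]
    · intro b _ hb
      rw [Pi.single_eq_of_ne hb, zero_mul, zero_mul]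
    · intro h
      exact absurd (Finset.mem_univ j) h
  -- the group elements
  have hsub : ∀ γ : GF G (Fin q), (of ℤ _ γ - 1 : RR G (Fin q)) • X0 ∈ W := by
    have hmul : ∀ a b : GF G (Fin q), (of ℤ _ a - 1 : RR G (Fin q)) • X0 ∈ W →
        (of ℤ _ b - 1 : RR G (Fin q)) • X0 ∈ W → (of ℤ _ (a * b) - 1 : RR G (Fin q)) • X0 ∈ W := by
      intro a b ha hb
      have e : (of ℤ _ (a * b) - 1 : RR G (Fin q)) • X0 =
          (of ℤ _ a : RR G (Fin q)) • ((of ℤ _ b - 1 : RR G (Fin q)) • X0) +
            (of ℤ _ a - 1 : RR G (Fin q)) • X0 := by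
        rw [smul_smul, ← add_smul]
        congr 1
        rw [map_mul]
        noncomm_ring
      rw [e]
      exact W.add_mem (W.smul_mem _ hb) ha
    have hinv : ∀ a : GF G (Fin q), (of ℤ _ a - 1 : RR G (Fin q)) • X0 ∈ W →
        (of ℤ _ a⁻¹ - 1 : RR G (Fin q)) • X0 ∈ W := by
      intro a ha
      have e : (of ℤ _ a⁻¹ - 1 : RR G (Fin q)) • X0 =
          -((of ℤ _ a⁻¹ : RR G (Fin q)) • ((of ℤ _ a - 1 : RR G (Fin q)) • X0)) := by
        rw [smul_smul, ← neg_smul]
        congr 1
        rw [mul_sub, ← map_mul, inv_mul_cancel, map_one, mul_one, neg_sub]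
      rw [e]
      exact W.neg_mem (W.smul_mem _ ha)
    intro γ
    induction γ using Monoid.Coprod.induction_on with
    | inl g =>
      have e : (of ℤ _ (inl g : GF G (Fin q)) - 1 : RR G (Fin q)) • X0 =
          fun a => io G (Fin q) (((MonoidAlgebra.of ℤ G g - 1 : MonoidAlgebra ℤ G) • x0) a) := by
        funext a
        rw [Pi.smul_apply, Pi.smul_apply, smul_eq_mul, smul_eq_mul, map_mul, map_sub, map_one]
        have : io G (Fin q) (MonoidAlgebra.of ℤ G g) = of ℤ _ (inl g : GF G (Fin q)) := io_uu g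
        rw [this]
      rw [e]
      apply hio
      rw [sub_smul, one_smul, map_sub, h1, sub_self]
    | inr z =>
      induction z using FreeGroup.induction_on with
      | C1 => rw [map_one, map_one, sub_self, zero_smul]; exact W.zero_mem
      | of j => exact hy j
      | inv_of j _ =>
        rw [map_inv]
        exact hinv _ (hy j)
      | mul a b ha hb =>
        rw [map_mul]
        exact hmul _ _ ha hb
    | mul a b ha hb => exact hmul a b ha hb
  have hr : ∀ r : RR G (Fin q), r • X0 - aug (GF G (Fin q)) r • X0 ∈ W := by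
    intro r
    refine MonoidAlgebra.induction_on
      (motive := fun r => r • X0 - aug (GF G (Fin q)) r • X0 ∈ W) r
      (fun γ => ?_) (fun a b ha hb => ?_) (fun m a ha => ?_)
    · have e : aug (GF G (Fin q)) (of ℤ _ γ) = 1 := aug_uu _
      have := hsub γ
      rw [sub_smul, one_smul] at this
      rw [e, one_smul]
      exact this
    · have e : (a + b) • X0 - aug (GF G (Fin q)) (a + b) • X0 =
          (a • X0 - aug (GF G (Fin q)) a • X0) + (b • X0 - aug (GF G (Fin q)) b • X0) := by
        rw [map_add, add_smul, add_smul]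
        abel
      rw [e]
      exact W.add_mem ha hb
    · have e : (m • a) • X0 - aug (GF G (Fin q)) (m • a) • X0 =
          m • (a • X0 - aug (GF G (Fin q)) a • X0) := by
        rw [map_zsmul, smul_sub, smul_assoc, smul_assoc]
      rw [e]
      exact W.smul_of_tower_mem m ha
  have he : ∀ a : Fin l, (Pi.single a 1 : Fin l → RR G (Fin q)) - c a • X0 ∈ W := by
    intro a
    have e : (Pi.single a 1 : Fin l → RR G (Fin q)) - c a • X0 =
        fun b => io G (Fin q) (((Pi.single a 1 : Fin l → MonoidAlgebra ℤ G) - c a • x0) b) := by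
      funext b
      rw [Pi.sub_apply, Pi.sub_apply, Pi.smul_apply, Pi.smul_apply, map_sub, map_zsmul]
      by_cases hb : b = a
      · subst hb
        rw [Pi.single_eq_same, Pi.single_eq_same, map_one]
      · rw [Pi.single_eq_of_ne hb, Pi.single_eq_of_ne hb, map_zero]
    rw [e]
    apply hio
    rw [map_sub, map_zsmul, h2, hc]
    simp
  have hx : x - eG G q c x • X0 ∈ W := by
    have e1 : x = ∑ a, x a • (Pi.single a 1 : Fin l → RR G (Fin q)) := by
      funext j
      simp [Finset.sum_apply, Pi.single_apply]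
    have e2 : x - eG G q c x • X0 = ∑ a, (x a • ((Pi.single a 1 : Fin l → RR G (Fin q)) -
        c a • X0) + c a • (x a • X0 - aug (GF G (Fin q)) (x a) • X0)) := by
      have e0 : ∀ a, (x a • ((Pi.single a 1 : Fin l → RR G (Fin q)) -
          c a • X0) + c a • (x a • X0 - aug (GF G (Fin q)) (x a) • X0)) =
          x a • (Pi.single a 1 : Fin l → RR G (Fin q)) -
            (aug (GF G (Fin q)) (x a) * c a) • X0 := by
        intro a
        rw [smul_sub, smul_sub, smul_comm (c a) (x a), smul_smul (c a), mul_comm (c a)]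
        abel
      rw [Finset.sum_congr rfl (fun a _ => e0 a), Finset.sum_sub_distrib, ← e1,
        ← Finset.sum_smul, eG_apply]
    rw [e2]
    exact W.sum_mem fun a _ => W.add_mem (W.smul_mem _ (he a)) (W.smul_of_tower_mem _ (hr _))
  rw [← hW]
  constructor
  · intro h
    rw [h, zero_smul, sub_zero] at hx
    exact hx
  · intro h
    obtain ⟨y, rfl⟩ := (hW x).1 h
    have e3 : y ᵥ* row0 q A x0 = ∑ i, y i • row0 q A x0 i := by
      funext a
      simp [Matrix.vecMul, dotProduct, Finset.sum_apply]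
    rw [e3, map_sum]
    refine Finset.sum_eq_zero fun i _ => ?_
    rw [eG_smul]
    rcases i with i | i
    · have e4 : row0 q A x0 (Sum.inl i) = fun a => io G (Fin q) (A i a) := rfl
      rw [e4, eG_io ε h1 (fun a => A i a), (h3 _).2 ⟨Pi.single i 1, by
        rw [Matrix.single_one_vecMul]; rfl⟩, mul_zero]
    · have e4 : row0 q A x0 (Sum.inr i) = (of ℤ _ (yy G i) - 1 : RR G (Fin q)) • X0 := rfl
      have e5 : aug (GF G (Fin q)) (of ℤ _ (yy G i) - 1) = 0 := by
        rw [map_sub, map_one]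
        have : aug (GF G (Fin q)) (of ℤ _ (yy G i)) = 1 := aug_uu _
        rw [this, sub_self]
      rw [e4, eG_smul, e5, zero_mul, mul_zero]

theorem lvl1 (u : Fin m ⊕ Fin q → RR G (Fin q)) :
    u ᵥ* row0 q A x0 = 0 ↔ (u ∘ Sum.inl) ᵥ* A.map (io G (Fin q)) = 0 ∧ u ∘ Sum.inr = 0 := by
  set c : Fin l → ℤ := fun a => ε (Pi.single a 1) with hc
  constructor
  · intro h
    have hA : ∀ i, ∑ a, c a * aug G (A i a) = 0 := by
      intro i
      have e1 : ε (fun a => A i a) = 0 := (h3 _).2 ⟨Pi.single i 1, by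
        rw [Matrix.single_one_vecMul]; rfl⟩
      rw [eps_eq ε h1] at e1
      rw [← e1]
      exact Finset.sum_congr rfl fun a _ => mul_comm _ _
    have hx0 : ∑ a, c a * aug G (x0 a) = 1 := by
      have e1 := h2
      rw [eps_eq ε h1] at e1
      rw [← e1]
      exact Finset.sum_congr rfl fun a _ => mul_comm _ _
    have h0 : u ∘ Sum.inr = 0 := by
      funext i
      have e1 : PsiF G q i c (u ᵥ* row0 q A x0) = 0 := by rw [h, map_zero]
      rw [row0_mul, map_add, PsiF_apply, PsiF_apply] at e1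
      have e2 : ∑ a, c a • DD i (((u ∘ Sum.inl) ᵥ* A.map (io G (Fin q))) a) = 0 := by
        simp only [Matrix.vecMul, dotProduct, Matrix.map_apply, map_sum, DD_mul_io,
          Finset.smul_sum, aug_io, Function.comp_apply]
        rw [Finset.sum_comm]
        refine Finset.sum_eq_zero fun b _ => ?_
        simp only [smul_smul]
        rw [← Finset.sum_smul, hA, zero_smul]
      have e3 : ∑ a, c a • DD i (∑ j, (u (Sum.inr j)) * (of ℤ _ (yy G j) - 1) *
          io G (Fin q) (x0 a)) = u (Sum.inr i) := by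
        simp only [map_sum, DD_mul_io, DD_yy, aug_io]
        have e4 : ∀ a, (∑ j, aug G (x0 a) • (if j = i then u (Sum.inr j) else 0)) =
            aug G (x0 a) • u (Sum.inr i) := by
          intro a
          rw [Finset.sum_eq_single i]
          · rw [if_pos rfl]
          · intro b _ hb
            rw [if_neg hb, smul_zero]
          · intro hh
            exact absurd (Finset.mem_univ i) hh
        simp only [e4, smul_smul]
        rw [← Finset.sum_smul, hx0, one_smul]
      rw [e2, e3, zero_add] at e1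
      exact e1
    refine ⟨?_, h0⟩
    rw [row0_mul] at h
    have e5 : (fun a => ∑ j, (u (Sum.inr j)) * (of ℤ _ (yy G j) - 1) *
        io G (Fin q) (x0 a)) = (0 : Fin l → RR G (Fin q)) := by
      funext a
      refine Finset.sum_eq_zero fun j _ => ?_
      have e6 : u (Sum.inr j) = 0 := congrFun h0 j
      rw [e6, zero_mul, zero_mul]
    rwa [e5, add_zero] at h
  · rintro ⟨e1, e2⟩
    rw [row0_mul, e1, zero_add]
    funext a
    refine Finset.sum_eq_zero fun j _ => ?_
    have e6 : u (Sum.inr j) = 0 := congrFun e2 j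
    rw [e6, zero_mul, zero_mul]

end lvl0

end Pool.Agent.U674.FP
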