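import Pool.Agent.U674.FP.Lift

/-!
# Boundary matrices over `G * F`, and splittings
-/

set_option autoImplicit false

namespace Pool.Agent.U674.FP

open Matrix TH57.FF MonoidAlgebra Monoid.Coprod
open Pool.Agent.U674.TI

section lift

variable {G : Type} [Group G] (q : ℕ)

theorem flat_io {l m k : ℕ} (Y : Matrix (Fin l) (Fin m) (MonoidAlgebra ℤ G))
    (A : Matrix (Fin m) (Fin k) (MonoidAlgebra ℤ G))
    (h1 : ∀ x : Fin m → MonoidAlgebra ℤ G, x ᵥ* A = 0 ↔ ∃ y : Fin l → MonoidAlgebra ℤ G, y ᵥ* Y = x)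
    (v : Fin m → RR G (Fin q)) : v ᵥ* A.map (io G (Fin q)) = 0 ↔
      ∃ y : Fin l → RR G (Fin q), y ᵥ* Y.map (io G (Fin q)) = v :=
  flat_pair (io G (Fin q)) _ _ (RB_group (inl : G →* GF G (Fin q)) Monoid.Coprod.inl_injective)
    Y A h1 v

/-- the second boundary matrix -/
noncomputable def mat1 {m k : ℕ} (A : Matrix (Fin m) (Fin k) (MonoidAlgebra ℤ G)) :
    Matrix (Fin m) (Fin (k + q)) (RR G (Fin q)) :=
  (fromCols (A.map (io G (Fin q))) (0 : Matrix (Fin m) (Fin q) (RR G (Fin q)))).submatrix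
    (Equiv.refl _) (finSumFinEquiv (m := k) (n := q)).symm

theorem vecMul_mat1 {m k : ℕ} (A : Matrix (Fin m) (Fin k) (MonoidAlgebra ℤ G))
    (y : Fin m → RR G (Fin q)) :
    y ᵥ* mat1 q A = (Sum.elim (y ᵥ* A.map (io G (Fin q))) 0) ∘
      (finSumFinEquiv (m := k) (n := q)).symm := by
  unfold mat1
  rw [vecMul_submatrix_equiv]
  congr 1
  change y ᵥ* _ = _
  rw [Matrix.vecMul_fromCols, Matrix.vecMul_zero]

theorem Bd1 {m k : ℕ} (A : Matrix (Fin m) (Fin k) (MonoidAlgebra ℤ G)) (h : Bd G 1 A) :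
    Bd (GF G (Fin q)) 1 (mat1 q A) := by
  obtain ⟨l, B, ⟨ε, h1, hs, h3⟩, h4⟩ := h
  obtain ⟨x0, h2⟩ := hs 1
  set e := finSumFinEquiv (m := k) (n := q) with he
  have hv : ∀ y : Fin (k + q) → RR G (Fin q),
      y ᵥ* (row0 q B x0).submatrix e.symm (Equiv.refl _) = (y ∘ e) ᵥ* row0 q B x0 := by
    intro y
    rw [vecMul_submatrix_equiv]
    rfl
  refine ⟨l, (row0 q B x0).submatrix e.symm (Equiv.refl _),
    ⟨eG G q (fun a => ε (Pi.single a 1)), ?_, ?_, ?_⟩, ?_⟩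
  · intro g x
    rw [eG_smul]
    have : aug (GF G (Fin q)) (MonoidAlgebra.of ℤ _ g) = 1 := aug_uu _
    rw [this, one_mul]
  · intro z
    refine ⟨z • (fun a => io G (Fin q) (x0 a)), ?_⟩
    rw [map_zsmul, eG_io ε h1, h2, smul_eq_mul, mul_one]
  · intro x
    rw [lvl0 B ε h1 x0 h2 h3]
    constructor
    · rintro ⟨y, rfl⟩
      refine ⟨y ∘ e.symm, ?_⟩
      rw [hv]
      congr 1
      funext i
      simp
    · rintro ⟨y, rfl⟩
      exact ⟨y ∘ e, (hv y).symm⟩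
  · intro x
    rw [hv, lvl1 B ε h1 x0 h2 h3, flat_io q A B h4]
    constructor
    · rintro ⟨⟨y, hy⟩, h0⟩
      refine ⟨y, ?_⟩
      rw [vecMul_mat1, hy]
      funext i
      obtain ⟨j, rfl⟩ := e.surjective i
      rw [Function.comp_apply, ← he, Equiv.symm_apply_apply]
      rcases j with j | j
      · rfl
      · exact (congrFun h0 j).symm
    · rintro ⟨y, rfl⟩
      rw [vecMul_mat1]
      refine ⟨⟨y, ?_⟩, ?_⟩
      · funext i
        simp [he]
      · funext i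
        simp [he]

theorem Bd2 {m k : ℕ} (A : Matrix (Fin m) (Fin k) (MonoidAlgebra ℤ G)) (h : Bd G 2 A) :
    Bd (GF G (Fin q)) 2 (A.map (io G (Fin q))) := by
  obtain ⟨l, B, h1, h2⟩ := h
  refine ⟨l + q, mat1 q B, Bd1 q B h1, fun x => ?_⟩
  rw [vecMul_mat1, ← flat_io q A B h2]
  constructor
  · intro h3
    funext i
    have := congrFun h3 (finSumFinEquiv (m := l) (n := q) (Sum.inl i))
    simpa using this
  · intro h3
    rw [h3]
    funext i
    obtain ⟨j, rfl⟩ := (finSumFinEquiv (m := l) (n := q)).surjective i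
    rcases j with j | j
    · simp
    · simp

/-- boundary matrices over `G` are boundary matrices over `G * F` -/
theorem BdS : ∀ (n : ℕ) {m k : ℕ} (A : Matrix (Fin m) (Fin k) (MonoidAlgebra ℤ G)),
    Bd G (n + 2) A → Bd (GF G (Fin q)) (n + 2) (A.map (io G (Fin q)))
  | 0, m, k, A, h => Bd2 q A h
  | n + 1, m, k, A, h => by
    obtain ⟨l, B, h1, h2⟩ := h
    exact ⟨l, B.map (io G (Fin q)), BdS n B h1, fun x => flat_io q A B h2 x⟩

end lift

section split

variable {R : Type} [Ring R]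

theorem rowSp_equiv {m k : ℕ} (E : Matrix (Fin m) (Fin m) R) (A : Matrix (Fin m) (Fin k) R)
    (hE : E * E = E) (hEA : E * A = A) (hk : ∀ x : Fin m → R, x ᵥ* A = 0 → x ᵥ* E = 0) :
    Nonempty (RowSp E ≃ₗ[R] Im A) := by
  let f : RowSp E →ₗ[R] Im A := A.vecMulLinear.rangeRestrict ∘ₗ (RowSp E).subtype
  have hf : ∀ x : RowSp E, ((f x : Im A) : Fin k → R) = (x : Fin m → R) ᵥ* A := fun x => rfl
  have hfix : ∀ x : RowSp E, (x : Fin m → R) ᵥ* E = x := by
    rintro ⟨_, y, rfl⟩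
    change (E.toLinearMapRight' y) ᵥ* E = E.toLinearMapRight' y
    rw [toLinearMapRight'_apply, vecMul_vecMul, hE]
  refine ⟨LinearEquiv.ofBijective f ⟨?_, ?_⟩⟩
  · rw [← LinearMap.ker_eq_bot, LinearMap.ker_eq_bot']
    intro x hx
    apply Subtype.ext
    have h1 : (x : Fin m → R) ᵥ* A = 0 := by
      rw [← hf, hx]
      rfl
    have h2 := hk _ h1
    rw [hfix] at h2
    exact h2
  · rintro ⟨_, y, rfl⟩
    refine ⟨⟨y ᵥ* E, y, toLinearMapRight'_apply _ _⟩, Subtype.ext ?_⟩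
    rw [hf]
    change (y ᵥ* E) ᵥ* A = y ᵥ* A
    rw [vecMul_vecMul, hEA]

theorem exists_E {m k : ℕ} (A : Matrix (Fin m) (Fin k) R) (hA : Module.Projective R (Im A)) :
    ∃ E : Matrix (Fin m) (Fin m) R, E * E = E ∧ E * A = A ∧
      ∀ x : Fin m → R, x ᵥ* A = 0 ↔ ∃ y : Fin m → R, y ᵥ* (1 - E) = x := by
  obtain ⟨s, hs⟩ := Module.projective_lifting_property A.vecMulLinear.rangeRestrict
    (LinearMap.id : Im A →ₗ[R] Im A) (LinearMap.surjective_rangeRestrict _)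
  have hs' : ∀ x : Im A, (s x) ᵥ* A = (x : Fin k → R) := fun x =>
    congrArg (fun g : Im A →ₗ[R] Im A => ((g x : Im A) : Fin k → R)) hs
  let p : (Fin m → R) →ₗ[R] Im A := A.vecMulLinear.rangeRestrict
  have hp : ∀ y : Fin m → R, ((p y : Im A) : Fin k → R) = y ᵥ* A := fun y => rfl
  have hps : ∀ x, p (s x) = x := fun x => Subtype.ext (by rw [hp, hs'])
  let E : Matrix (Fin m) (Fin m) R := (s ∘ₗ p).toMatrixRight'
  have hE' : E.toLinearMapRight' = s ∘ₗ p := LinearEquiv.symm_apply_apply _ _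
  have hE1 : ∀ y : Fin m → R, y ᵥ* E = s (p y) := fun y => by
    rw [← toLinearMapRight'_apply, hE', LinearMap.comp_apply]
  have hE : E * E = E := by
    ext1 i j
    have : (Pi.single i (1 : R)) ᵥ* (E * E) = (Pi.single i (1 : R)) ᵥ* E := by
      rw [← vecMul_vecMul, hE1, hE1, hps]
    rw [Matrix.single_one_vecMul, Matrix.single_one_vecMul] at this
    exact congrFun this j
  have hEA : E * A = A := by
    ext1 i j
    have : (Pi.single i (1 : R)) ᵥ* (E * A) = (Pi.single i (1 : R)) ᵥ* A := by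
      rw [← vecMul_vecMul, hE1, hs', hp]
    rw [Matrix.single_one_vecMul, Matrix.single_one_vecMul] at this
    exact congrFun this j
  refine ⟨E, hE, hEA, fun x => ⟨fun h => ⟨x, ?_⟩, ?_⟩⟩
  · have h1 : x ᵥ* E = 0 := by
      have h2 : p x = 0 := Subtype.ext (by rw [hp, h]; rfl)
      rw [hE1, h2, map_zero]
    rw [Matrix.vecMul_sub, Matrix.vecMul_one, h1, sub_zero]
  · rintro ⟨y, rfl⟩
    rw [vecMul_vecMul, Matrix.sub_mul, Matrix.one_mul, hEA, sub_self, Matrix.vecMul_zero]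

theorem ker_E {m k : ℕ} (E : Matrix (Fin m) (Fin m) R) (A : Matrix (Fin m) (Fin k) R)
    (hE : E * E = E) (hk : ∀ x : Fin m → R, x ᵥ* A = 0 ↔ ∃ y : Fin m → R, y ᵥ* (1 - E) = x)
    (x : Fin m → R) (hx : x ᵥ* A = 0) : x ᵥ* E = 0 := by
  obtain ⟨y, rfl⟩ := (hk x).1 hx
  rw [vecMul_vecMul, Matrix.sub_mul, Matrix.one_mul, hE, sub_self, Matrix.vecMul_zero]

end split

/-- projective syzygies over `G` and over `G * F` -/
theorem exists_split_io {G : Type} [Group G] {m k : ℕ}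
    (A : Matrix (Fin m) (Fin k) (MonoidAlgebra ℤ G))
    (hA : Module.Projective (MonoidAlgebra ℤ G) (Im A)) :
    ∃ E : Matrix (Fin m) (Fin m) (MonoidAlgebra ℤ G), E * E = E ∧
      Nonempty (RowSp E ≃ₗ[MonoidAlgebra ℤ G] Im A) ∧
      ∀ q : ℕ, Nonempty (RowSp (E.map (io G (Fin q))) ≃ₗ[RR G (Fin q)]
        Im (A.map (io G (Fin q)))) := by
  obtain ⟨E, hE, hEA, hk⟩ := exists_E A hA
  refine ⟨E, hE, rowSp_equiv E A hE hEA (ker_E E A hE hk), fun q => ?_⟩
  have hE' := io_idem (k := Fin q) E hE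
  have h1 : (1 - E).map (io G (Fin q)) = 1 - E.map (io G (Fin q)) := by
    ext1 i j
    simp only [Matrix.map_apply, Matrix.sub_apply, map_sub, Matrix.one_apply]
    congr 1
    by_cases h : i = j
    · rw [if_pos h, if_pos h, map_one]
    · rw [if_neg h, if_neg h, map_zero]
  refine rowSp_equiv _ _ hE' (by rw [← Matrix.map_mul, hEA]) (ker_E _ _ hE' fun x => ?_)
  rw [flat_io q (1 - E) A hk, h1]

section diag

variable {G : Type} [Group G]

/-- the direct sum with an identity matrix -/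
noncomputable def dgm {m k : ℕ} (A : Matrix (Fin m) (Fin k) (MonoidAlgebra ℤ G)) (q : ℕ) :
    Matrix (Fin (m + q)) (Fin (k + q)) (MonoidAlgebra ℤ G) :=
  (fromBlocks A 0 0 (1 : Matrix (Fin q) (Fin q) (MonoidAlgebra ℤ G))).submatrix
    (finSumFinEquiv (m := m) (n := q)).symm (finSumFinEquiv (m := k) (n := q)).symm

theorem vecMul_dgm {m k q : ℕ} (A : Matrix (Fin m) (Fin k) (MonoidAlgebra ℤ G))
    (y : Fin (m + q) → MonoidAlgebra ℤ G) :
    y ᵥ* dgm A q = (Sum.elim ((y ∘ finSumFinEquiv (m := m) (n := q) ∘ Sum.inl) ᵥ* A)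
      (y ∘ finSumFinEquiv (m := m) (n := q) ∘ Sum.inr)) ∘
      (finSumFinEquiv (m := k) (n := q)).symm := by
  unfold dgm
  rw [vecMul_submatrix_equiv, vecMul_fromBlocks_diag, Matrix.vecMul_one]
  rfl

theorem Bd_dgm (n : ℕ) {m k : ℕ} (A : Matrix (Fin m) (Fin k) (MonoidAlgebra ℤ G)) (q : ℕ)
    (h : Bd G (n + 1) A) : Bd G (n + 1) (dgm A q) := by
  obtain ⟨l, B, h1, h2⟩ := h
  set e := finSumFinEquiv (m := k) (n := q) with he
  have hv : ∀ y : Fin (k + q) → MonoidAlgebra ℤ G,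
      y ᵥ* (fromRows B (0 : Matrix (Fin q) (Fin l) (MonoidAlgebra ℤ G))).submatrix
        e.symm (Equiv.refl _) = (y ∘ e ∘ Sum.inl) ᵥ* B := by
    intro y
    rw [vecMul_submatrix_equiv, Matrix.vecMul_fromRows, Matrix.vecMul_zero, add_zero]
    rfl
  refine ⟨l, (fromRows B (0 : Matrix (Fin q) (Fin l) (MonoidAlgebra ℤ G))).submatrix
    e.symm (Equiv.refl _), ?_, fun x => ?_⟩
  · refine Bd_range n B _ (fun x => ?_) h1
    constructor
    · rintro ⟨y, rfl⟩
      refine ⟨(Sum.elim y 0) ∘ e.symm, ?_⟩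
      have e1 : ((Sum.elim y 0) ∘ e.symm) ∘ e ∘ Sum.inl = y := by
        funext i
        simp
      rw [hv, e1]
    · rintro ⟨y, rfl⟩
      exact ⟨_, (hv y).symm⟩
  · rw [hv, h2]
    constructor
    · rintro ⟨y, hy⟩
      refine ⟨(Sum.elim y (x ∘ e ∘ Sum.inr)) ∘ (finSumFinEquiv (m := m) (n := q)).symm, ?_⟩
      have e1 : ((Sum.elim y (x ∘ e ∘ Sum.inr)) ∘ (finSumFinEquiv (m := m) (n := q)).symm) ∘
          finSumFinEquiv (m := m) (n := q) ∘ Sum.inl = y := by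
        funext i
        simp
      have e2 : ((Sum.elim y (x ∘ e ∘ Sum.inr)) ∘ (finSumFinEquiv (m := m) (n := q)).symm) ∘
          finSumFinEquiv (m := m) (n := q) ∘ Sum.inr = x ∘ e ∘ Sum.inr := by
        funext i
        simp
      rw [vecMul_dgm, e1, e2, hy]
      funext i
      obtain ⟨j, rfl⟩ := e.surjective i
      rw [Function.comp_apply, ← he, Equiv.symm_apply_apply]
      rcases j with j | j
      · rfl
      · rfl
    · rintro ⟨y, rfl⟩
      refine ⟨y ∘ finSumFinEquiv (m := m) (n := q) ∘ Sum.inl, ?_⟩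
      rw [vecMul_dgm]
      funext i
      simp [he]

theorem Im_dgm {m k q : ℕ} (A : Matrix (Fin m) (Fin k) (MonoidAlgebra ℤ G)) :
    Nonempty ((Im A × (Fin q → MonoidAlgebra ℤ G)) ≃ₗ[MonoidAlgebra ℤ G] Im (dgm A q)) := by
  let T : ((Fin k → MonoidAlgebra ℤ G) × (Fin q → MonoidAlgebra ℤ G)) ≃ₗ[MonoidAlgebra ℤ G]
      (Fin (k + q) → MonoidAlgebra ℤ G) :=
    (LinearEquiv.sumArrowLequivProdArrow (Fin k) (Fin q) _ _).symm.trans
      (LinearEquiv.funCongrLeft _ _ finSumFinEquiv.symm)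
  have hT : ∀ v, T v = (Sum.elim v.1 v.2) ∘ (finSumFinEquiv (m := k) (n := q)).symm := by
    rintro ⟨v1, v2⟩
    funext i
    obtain ⟨j, rfl⟩ := (finSumFinEquiv (m := k) (n := q)).surjective i
    rcases j with j | j
    · simp [T, LinearEquiv.funCongrLeft]
    · simp [T, LinearEquiv.funCongrLeft]
  let f : (Im A × (Fin q → MonoidAlgebra ℤ G)) →ₗ[MonoidAlgebra ℤ G]
      (Fin (k + q) → MonoidAlgebra ℤ G) :=
    T.toLinearMap ∘ₗ LinearMap.prodMap (Im A).subtype LinearMap.id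
  have hf : Function.Injective f := by
    intro x y h
    have h1 : ((x.1 : Fin k → MonoidAlgebra ℤ G), x.2) = ((y.1 : Fin k → MonoidAlgebra ℤ G), y.2) :=
      T.injective h
    have h2 : x.1 = y.1 := Subtype.ext (Prod.mk.inj h1).1
    have h3 : x.2 = y.2 := (Prod.mk.inj h1).2
    exact Prod.ext h2 h3
  have hfa : ∀ (x : Im A) (z : Fin q → MonoidAlgebra ℤ G), f (x, z) =
      T ((x : Fin k → MonoidAlgebra ℤ G), z) := fun _ _ => rfl
  have hr : LinearMap.range f = Im (dgm A q) := by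
    apply le_antisymm
    · rintro _ ⟨⟨⟨_, y, rfl⟩, z⟩, rfl⟩
      refine ⟨(Sum.elim y z) ∘ (finSumFinEquiv (m := m) (n := q)).symm, ?_⟩
      have e1 : ((Sum.elim y z) ∘ (finSumFinEquiv (m := m) (n := q)).symm) ∘
          finSumFinEquiv (m := m) (n := q) ∘ Sum.inl = y := by
        funext i
        simp
      have e2 : ((Sum.elim y z) ∘ (finSumFinEquiv (m := m) (n := q)).symm) ∘
          finSumFinEquiv (m := m) (n := q) ∘ Sum.inr = z := by
        funext i
        simp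
      rw [hfa, hT, Matrix.vecMulLinear_apply, vecMul_dgm, e1, e2]
      rfl
    · rintro _ ⟨y, rfl⟩
      refine ⟨(⟨(y ∘ finSumFinEquiv (m := m) (n := q) ∘ Sum.inl) ᵥ* A, _, rfl⟩,
        y ∘ finSumFinEquiv (m := m) (n := q) ∘ Sum.inr), ?_⟩
      rw [hfa, hT]
      exact (vecMul_dgm A y).symm
  exact ⟨(LinearEquiv.ofInjective f hf).trans (LinearEquiv.ofEq _ _ hr)⟩

end diag

end Pool.Agent.U674.FP
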