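import Pool.Agent.TH57.FF.Bd
import Pool.Agent.U674.TI.Stab

/-!
# Projective resolutions, free resolutions and stable freeness of syzygies
-/

set_option autoImplicit false

namespace Pool.Agent.U674.FP

open Matrix TH57.FF
open Pool.Agent.U674.TI (SF aug uu)

section gen

variable {R : Type} [Ring R]

/-- `M` has a resolution of length `n` by finitely generated projective modules -/
def PP (R : Type) [Ring R] : ℕ → ∀ (M : Type) [AddCommGroup M] [Module R M], Prop
  | 0, M, _, _ => Module.Finite R M ∧ Module.Projective R M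
  | n + 1, M, _, _ => ∃ (P : Type) (_ : AddCommGroup P) (_ : Module R P) (f : P →ₗ[R] M),
      Module.Finite R P ∧ Module.Projective R P ∧ Function.Surjective f ∧
        PP R n (LinearMap.ker f)

/-- `M` has a resolution of length `n` by finitely generated modules, which are free but the last
one, which is projective -/
def PR (R : Type) [Ring R] : ℕ → ∀ (M : Type) [AddCommGroup M] [Module R M], Prop
  | 0, M, _, _ => Module.Finite R M ∧ Module.Projective R M
  | n + 1, M, _, _ => ∃ (k : ℕ) (f : (Fin k → R) →ₗ[R] M),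
      Function.Surjective f ∧ PR R n (LinearMap.ker f)

theorem PP_equiv (n : ℕ) {M M' : Type} [AddCommGroup M] [Module R M] [AddCommGroup M']
    [Module R M'] (e : M ≃ₗ[R] M') (h : PP R n M) : PP R n M' := by
  cases n with
  | zero =>
    obtain ⟨h1, h2⟩ := h
    exact ⟨Module.Finite.equiv e, Module.Projective.of_equiv e⟩
  | succ n =>
    obtain ⟨P, i1, i2, f, h1, h2, hf, h3⟩ := h
    refine ⟨P, i1, i2, e.toLinearMap ∘ₗ f, h1, h2, e.surjective.comp hf, ?_⟩
    have : LinearMap.ker (e.toLinearMap ∘ₗ f) = LinearMap.ker f := LinearEquiv.ker_comp e f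
    rw [this]
    exact h3

theorem PR_equiv (n : ℕ) {M M' : Type} [AddCommGroup M] [Module R M] [AddCommGroup M']
    [Module R M'] (e : M ≃ₗ[R] M') (h : PR R n M) : PR R n M' := by
  cases n with
  | zero =>
    obtain ⟨h1, h2⟩ := h
    exact ⟨Module.Finite.equiv e, Module.Projective.of_equiv e⟩
  | succ n =>
    obtain ⟨k, f, hf, h3⟩ := h
    refine ⟨k, e.toLinearMap ∘ₗ f, e.surjective.comp hf, ?_⟩
    have : LinearMap.ker (e.toLinearMap ∘ₗ f) = LinearMap.ker f := LinearEquiv.ker_comp e f
    rw [this]
    exact h3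

/-- an equivalence from two inverse linear maps -/
def mkE {A B : Type} [AddCommGroup A] [Module R A] [AddCommGroup B] [Module R B] (f : A →ₗ[R] B)
    (g : B →ₗ[R] A) (h1 : ∀ b, f (g b) = b) (h2 : ∀ a, g (f a) = a) : A ≃ₗ[R] B :=
  LinearEquiv.ofLinearMap f g (LinearMap.ext h1) (LinearMap.ext h2)

/-- the kernel of a composition with a split surjection -/
theorem kerEquiv {P M F : Type} [AddCommGroup P] [Module R P] [AddCommGroup M] [Module R M]
    [AddCommGroup F] [Module R F] (p : F →ₗ[R] P) (s : P →ₗ[R] F) (hps : ∀ x, p (s x) = x)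
    (f : P →ₗ[R] M) :
    Nonempty (LinearMap.ker (f ∘ₗ p) ≃ₗ[R] (LinearMap.ker f × LinearMap.ker p)) := by
  refine ⟨mkE
    ((LinearMap.codRestrict (LinearMap.ker f) (p ∘ₗ (LinearMap.ker (f ∘ₗ p)).subtype)
      (fun x => x.2)).prod
      (LinearMap.codRestrict (LinearMap.ker p)
        ((LinearMap.id - s ∘ₗ p) ∘ₗ (LinearMap.ker (f ∘ₗ p)).subtype)
        (fun x => by simp [hps])))
    (LinearMap.codRestrict (LinearMap.ker (f ∘ₗ p))
      (s ∘ₗ (LinearMap.ker f).subtype ∘ₗ LinearMap.fst R _ _ +
        (LinearMap.ker p).subtype ∘ₗ LinearMap.snd R _ _)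
      (fun y => by
        have h1 : f y.1.1 = 0 := y.1.2
        have h2 : p y.2.1 = 0 := y.2.2
        simp [hps, h2, h1])) ?_ ?_⟩
  · intro y
    have h2 : p y.2.1 = 0 := y.2.2
    refine Prod.ext (Subtype.ext ?_) (Subtype.ext ?_)
    · simp [hps, h2]
    · simp [hps, h2]
  · intro x
    refine Subtype.ext ?_
    simp

/-- the kernel of a split surjection is projective and finitely generated -/
theorem ker_proj {P F : Type} [AddCommGroup P] [Module R P] [AddCommGroup F] [Module R F]
    (hF : Module.Finite R F) (hF' : Module.Projective R F)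
    (p : F →ₗ[R] P) (s : P →ₗ[R] F) (hps : ∀ x, p (s x) = x) :
    Module.Finite R (LinearMap.ker p) ∧ Module.Projective R (LinearMap.ker p) := by
  let q : F →ₗ[R] LinearMap.ker p := LinearMap.codRestrict _ (LinearMap.id - s ∘ₗ p) (fun x => by
    rw [LinearMap.mem_ker]
    simp [hps])
  have hq : q ∘ₗ (LinearMap.ker p).subtype = LinearMap.id := by
    apply LinearMap.ext
    rintro ⟨x, hx⟩
    apply Subtype.ext
    have hx' : p x = 0 := hx
    simp [q, hx']
  refine ⟨Module.Finite.of_surjective q fun x => ⟨x.1, ?_⟩, Module.Projective.of_split _ q hq⟩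
  exact congrArg (fun g => g x) hq

theorem exists_split {P : Type} [AddCommGroup P] [Module R P] (h1 : Module.Finite R P)
    (h2 : Module.Projective R P) : ∃ (n : ℕ) (p : (Fin n → R) →ₗ[R] P) (s : P →ₗ[R] (Fin n → R)),
      ∀ x, p (s x) = x := by
  obtain ⟨n, p, s, _, _, hps⟩ := Module.Finite.exists_comp_eq_id_of_projective R P
  exact ⟨n, p, s, fun x => congrArg (fun g => g x) hps⟩

theorem PP_prod : ∀ (n : ℕ) (M Q : Type) [AddCommGroup M] [Module R M] [AddCommGroup Q]
    [Module R Q], PP R n M → Module.Finite R Q → Module.Projective R Q → PP R n (M × Q)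
  | 0, M, Q, _, _, _, _, h, h1, h2 => by
    obtain ⟨h3, h4⟩ := h
    exact ⟨inferInstance, inferInstance⟩
  | n + 1, M, Q, _, _, _, _, h, h1, h2 => by
    obtain ⟨P, i1, i2, f, h3, h4, hf, h5⟩ := h
    refine ⟨P × Q, inferInstance, inferInstance, LinearMap.prodMap f LinearMap.id, inferInstance,
      inferInstance, ?_, ?_⟩
    · rintro ⟨x, y⟩
      obtain ⟨z, rfl⟩ := hf x
      exact ⟨(z, y), rfl⟩
    · refine PP_equiv n ?_ h5
      exact
        { toFun := fun y => ⟨(y.1, 0), by
            have h : f y.1 = 0 := y.2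
            rw [LinearMap.mem_ker, LinearMap.prodMap_apply, h]
            rfl⟩
          invFun := fun x => ⟨x.1.1, by
            have h : (LinearMap.prodMap f LinearMap.id) x.1 = 0 := x.2
            exact congrArg Prod.fst h⟩
          map_add' := fun x y => by
            ext
            · simp
            · simp
          map_smul' := fun r x => by
            ext
            · simp
            · simp
          left_inv := fun x => rfl
          right_inv := fun x => by
            have h : (LinearMap.prodMap f LinearMap.id) x.1 = 0 := x.2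
            have h' : x.1.2 = 0 := congrArg Prod.snd h
            ext
            · rfl
            · exact h'.symm }

theorem PR_of_PP : ∀ (n : ℕ) (M : Type) [AddCommGroup M] [Module R M], PP R n M → PR R n M
  | 0, M, _, _, h => h
  | n + 1, M, _, _, h => by
    obtain ⟨P, i1, i2, f, h1, h2, hf, h3⟩ := h
    obtain ⟨k, p, s, hps⟩ := exists_split h1 h2
    have h4 := ker_proj inferInstance inferInstance p s hps
    refine ⟨k, f ∘ₗ p, hf.comp fun x => ⟨s x, hps x⟩, ?_⟩
    have h5 := PR_of_PP n _ (PP_prod n _ _ h3 h4.1 h4.2)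
    obtain ⟨e⟩ := kerEquiv p s hps f
    exact PR_equiv n e.symm h5

theorem PR_succ : ∀ (n : ℕ) (M : Type) [AddCommGroup M] [Module R M], PR R n M → PR R (n + 1) M
  | 0, M, _, _, h => by
    obtain ⟨k, p, s, hps⟩ := exists_split h.1 h.2
    exact ⟨k, p, fun x => ⟨s x, hps x⟩, ker_proj inferInstance inferInstance p s hps⟩
  | n + 1, M, _, _, h => by
    obtain ⟨k, f, hf, h1⟩ := h
    exact ⟨k, f, hf, PR_succ n _ h1⟩

theorem PR_add (n m : ℕ) (M : Type) [AddCommGroup M] [Module R M] (h : PR R n M) :
    PR R (n + m) M := by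
  induction m with
  | zero => exact h
  | succ m ih => exact PR_succ _ M ih

/-! ### Free resolutions -/

/-- the sum with a free module -/
theorem FR_prod : ∀ (n : ℕ) (M ι : Type) [AddCommGroup M] [Module R M] [Fintype ι], FR R n M →
    FR R n (M × (ι → R))
  | 0, M, ι, _, _, _, h => by
    obtain ⟨h1, h2⟩ := h
    exact ⟨inferInstance, inferInstance⟩
  | n + 1, M, ι, _, _, _, h => by
    obtain ⟨κ, i1, f, hf, h1⟩ := h
    let T := LinearEquiv.sumArrowLequivProdArrow κ ι R R
    refine ⟨κ ⊕ ι, inferInstance, (LinearMap.prodMap f LinearMap.id) ∘ₗ T.toLinearMap, ?_, ?_⟩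
    · rintro ⟨x, y⟩
      obtain ⟨z, rfl⟩ := hf x
      exact ⟨T.symm (z, y), by simp⟩
    · refine FR_equiv n ?_ h1
      exact
        { toFun := fun y => ⟨T.symm (y.1, 0), by
            have h : f y.1 = 0 := y.2
            rw [LinearMap.mem_ker, LinearMap.comp_apply, LinearEquiv.coe_coe,
              LinearEquiv.apply_symm_apply, LinearMap.prodMap_apply, h]
            rfl⟩
          invFun := fun x => ⟨(T x.1).1, by
            have h : (LinearMap.prodMap f LinearMap.id) (T x.1) = 0 := x.2
            exact congrArg Prod.fst h⟩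
          map_add' := fun x y => by
            apply Subtype.ext
            apply T.injective
            simp
          map_smul' := fun r x => by
            apply Subtype.ext
            apply T.injective
            simp
          left_inv := fun x => by
            apply Subtype.ext
            simp
          right_inv := fun x => by
            have h : (LinearMap.prodMap f LinearMap.id) (T x.1) = 0 := x.2
            have h' : (T x.1).2 = 0 := congrArg Prod.snd h
            apply Subtype.ext
            apply T.injective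
            rw [LinearEquiv.apply_symm_apply]
            exact Prod.ext rfl h'.symm }

/-- cancellation of a free module -/
theorem FR_cancel {n : ℕ} {X ι : Type} [AddCommGroup X] [Module R X] [Fintype ι]
    (h : FR R n (X × (ι → R))) : ∃ m, FR R m X := by
  have hfst : Function.Surjective (LinearMap.fst R X (ι → R)) := fun x => ⟨(x, 0), rfl⟩
  -- a split surjection onto the free module
  have key : ∀ (κ : Type) [Fintype κ] (g : (κ → R) →ₗ[R] (X × (ι → R))), Function.Surjective g →
      Nonempty (LinearMap.ker (LinearMap.fst R X (ι → R) ∘ₗ g) ≃ₗ[R]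
        (LinearMap.ker g × (ι → R))) := by
    intro κ _ g hg
    obtain ⟨t, ht⟩ := Module.projective_lifting_property g (LinearMap.inr R X (ι → R)) hg
    have ht' : ∀ v, g (t v) = (0, v) := fun v => congrArg (fun g => g v) ht
    refine ⟨mkE
      ((LinearMap.codRestrict (LinearMap.ker g)
        ((LinearMap.id - t ∘ₗ LinearMap.snd R X (ι → R) ∘ₗ g) ∘ₗ
          (LinearMap.ker (LinearMap.fst R X (ι → R) ∘ₗ g)).subtype)
        (fun x => by
          have h1 : (g x.1).1 = 0 := x.2
          rw [LinearMap.mem_ker]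
          simp only [LinearMap.comp_apply, LinearMap.sub_apply, LinearMap.id_apply, map_sub, ht',
            LinearMap.snd_apply, Submodule.subtype_apply]
          refine Prod.ext ?_ ?_
          · simp [h1]
          · simp)).prod
        (LinearMap.snd R X (ι → R) ∘ₗ g ∘ₗ
          (LinearMap.ker (LinearMap.fst R X (ι → R) ∘ₗ g)).subtype))
      (LinearMap.codRestrict (LinearMap.ker (LinearMap.fst R X (ι → R) ∘ₗ g))
        ((LinearMap.ker g).subtype ∘ₗ LinearMap.fst R _ _ + t ∘ₗ LinearMap.snd R _ _)
        (fun y => by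
          have h1 : g y.1.1 = 0 := y.1.2
          rw [LinearMap.mem_ker]
          simp [h1, ht'])) ?_ ?_⟩
    · intro y
      have h1 : g y.1.1 = 0 := y.1.2
      refine Prod.ext (Subtype.ext ?_) ?_
      · simp [h1, ht']
      · simp [h1, ht']
    · intro x
      refine Subtype.ext ?_
      simp
  cases n with
  | zero =>
    obtain ⟨h1, h2⟩ := h
    let b := Module.Free.chooseBasis R (X × (ι → R))
    let e := b.equivFun
    obtain ⟨e'⟩ := key _ e.symm.toLinearMap e.symm.surjective
    have h3 : FR R 0 (LinearMap.ker e.symm.toLinearMap × (ι → R)) := by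
      have : LinearMap.ker e.symm.toLinearMap = ⊥ := LinearEquiv.ker _
      rw [this]
      exact ⟨inferInstance, inferInstance⟩
    exact ⟨1, _, inferInstance, _, hfst.comp e.symm.surjective, FR_equiv 0 e'.symm h3⟩
  | succ n =>
    obtain ⟨κ, i1, g, hg, h1⟩ := h
    obtain ⟨e'⟩ := key κ g hg
    exact ⟨n + 1, κ, i1, _, hfst.comp hg, FR_equiv n e'.symm (FR_prod n _ ι h1)⟩

/-- Schanuel's lemma -/
theorem schanuel {M ι κ : Type} [AddCommGroup M] [Module R M] [Fintype ι] [Fintype κ]
    (f : (ι → R) →ₗ[R] M) (g : (κ → R) →ₗ[R] M) (hf : Function.Surjective f)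
    (hg : Function.Surjective g) :
    Nonempty ((LinearMap.ker f × (κ → R)) ≃ₗ[R] (LinearMap.ker g × (ι → R))) := by
  obtain ⟨h, hh⟩ := Module.projective_lifting_property g f hg
  obtain ⟨h', hh'⟩ := Module.projective_lifting_property f g hf
  have e1 : ∀ v, g (h v) = f v := fun v => congrArg (fun g => g v) hh
  have e2 : ∀ v, f (h' v) = g v := fun v => congrArg (fun g => g v) hh'
  -- (u, y) ↦ (x, y) = (h' y + u, y) ↦ (y - h x, x)
  let F : (LinearMap.ker f × (κ → R)) →ₗ[R] (ι → R) :=
    h' ∘ₗ LinearMap.snd R _ _ + (LinearMap.ker f).subtype ∘ₗ LinearMap.fst R _ _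
  let G : (LinearMap.ker g × (ι → R)) →ₗ[R] (κ → R) :=
    h ∘ₗ LinearMap.snd R _ _ + (LinearMap.ker g).subtype ∘ₗ LinearMap.fst R _ _
  have hF : ∀ w, F w = h' w.2 + w.1.1 := fun w => rfl
  have hG : ∀ w, G w = h w.2 + w.1.1 := fun w => rfl
  have hFf : ∀ w, f (F w) = g w.2 := fun w => by
    have h1 : f w.1.1 = 0 := w.1.2
    rw [hF, map_add, e2, h1, add_zero]
  have hGg : ∀ w, g (G w) = f w.2 := fun w => by
    have h1 : g w.1.1 = 0 := w.1.2
    rw [hG, map_add, e1, h1, add_zero]
  refine ⟨mkE
    ((LinearMap.codRestrict (LinearMap.ker g) (LinearMap.snd R _ _ - h ∘ₗ F)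
      (fun w => by
        rw [LinearMap.mem_ker]
        simp only [LinearMap.sub_apply, LinearMap.comp_apply, LinearMap.snd_apply, map_sub]
        rw [e1, hFf, sub_self])).prod F)
    ((LinearMap.codRestrict (LinearMap.ker f) (LinearMap.snd R _ _ - h' ∘ₗ G)
      (fun w => by
        rw [LinearMap.mem_ker]
        simp only [LinearMap.sub_apply, LinearMap.comp_apply, LinearMap.snd_apply, map_sub]
        rw [e2, hGg, sub_self])).prod G) ?_ ?_⟩
  · intro w
    have k1 : ∀ (z : (κ → R)) (hz : w.2 - h' (G w) ∈ LinearMap.ker f),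
        F (⟨w.2 - h' (G w), hz⟩, G w) = w.2 := fun z hz => by
      rw [hF]
      simp
    refine Prod.ext (Subtype.ext ?_) ?_
    · change G w - h (F (⟨w.2 - h' (G w), _⟩, G w)) = w.1.1
      rw [k1 0, hG]
      simp
    · exact k1 0 _
  · intro w
    have k1 : ∀ (hz : w.2 - h (F w) ∈ LinearMap.ker g),
        G (⟨w.2 - h (F w), hz⟩, F w) = w.2 := fun hz => by
      rw [hG]
      simp
    refine Prod.ext (Subtype.ext ?_) ?_
    · change F w - h' (G (⟨w.2 - h (F w), _⟩, F w)) = w.1.1
      rw [k1, hF]
      simp
    · exact k1 _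

/-- modules with a finite free resolution -/
def FFR (R : Type) [Ring R] (M : Type) [AddCommGroup M] [Module R M] : Prop := ∃ n, FR R n M

theorem FFR.equiv {M M' : Type} [AddCommGroup M] [Module R M] [AddCommGroup M']
    [Module R M'] (e : M ≃ₗ[R] M') (h : FFR R M) : FFR R M' := by
  obtain ⟨n, h⟩ := h
  exact ⟨n, FR_equiv n e h⟩

theorem FR_one {M : Type} [AddCommGroup M] [Module R M] (h : FR R 0 M) : FR R 1 M := by
  obtain ⟨h1, h2⟩ := h
  let e := (Module.Free.chooseBasis R M).equivFun
  refine ⟨_, inferInstance, e.symm.toLinearMap, e.symm.surjective, ?_⟩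
  have : LinearMap.ker e.symm.toLinearMap = ⊥ := LinearEquiv.ker _
  rw [this]
  exact ⟨inferInstance, inferInstance⟩

theorem FFR.ker {M ι : Type} [AddCommGroup M] [Module R M] [Fintype ι] (h : FFR R M)
    (f : (ι → R) →ₗ[R] M) (hf : Function.Surjective f) : FFR R (LinearMap.ker f) := by
  have key : ∀ n, FR R (n + 1) M → FFR R (LinearMap.ker f) := by
    rintro n ⟨κ, i1, g, hg, h1⟩
    obtain ⟨e⟩ := schanuel f g hf hg
    exact FR_cancel (FR_equiv n e.symm (FR_prod n _ ι h1))
  obtain ⟨n, h⟩ := h
  cases n with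
  | zero => exact key 0 (FR_one h)
  | succ n => exact key n h

/-- a projective module with a finite free resolution is stably free -/
theorem SF_of_FR : ∀ (n : ℕ) (M : Type) [AddCommGroup M] [Module R M], FR R n M →
    Module.Projective R M → SF R M
  | 0, M, _, _, h, _ => by
    obtain ⟨h1, h2⟩ := h
    let e := (Module.Free.chooseBasis R M).equivFun
    let e2 : (Module.Free.ChooseBasisIndex R M → R) ≃ₗ[R]
        (Fin (Fintype.card (Module.Free.ChooseBasisIndex R M)) → R) :=
      LinearEquiv.funCongrLeft R R (Fintype.equivFin _).symm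
    have h3 : SF R (Fin (Fintype.card (Module.Free.ChooseBasisIndex R M)) → R) := by
      obtain ⟨g⟩ := Pool.Agent.U674.TI.sumE (A := R)
        (Fintype.card (Module.Free.ChooseBasisIndex R M)) 0
      exact ⟨0, _, ⟨g⟩⟩
    exact SF.equiv (e.trans e2).symm h3
  | n + 1, M, _, _, h, h0 => by
    obtain ⟨ι, i1, f, hf, h1⟩ := h
    obtain ⟨s, hs⟩ := Module.projective_lifting_property f LinearMap.id hf
    have hs' : ∀ x, f (s x) = x := fun x => congrArg (fun g => g x) hs
    have h2 := ker_proj inferInstance inferInstance f s hs'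
    obtain ⟨a, b, ⟨e⟩⟩ := SF_of_FR n _ h1 h2.2
    -- M × R^b ≃ M × (ker f × R^a) ≃ (M × ker f) × R^a ≃ R^ι × R^a
    let e1 : (M × LinearMap.ker f) ≃ₗ[R] (ι → R) :=
      { toFun := fun y => s y.1 + y.2.1
        invFun := fun x => (f x, ⟨x - s (f x), by rw [LinearMap.mem_ker, map_sub, hs', sub_self]⟩)
        map_add' := fun x y => by
          simp only [Prod.fst_add, Prod.snd_add, map_add, Submodule.coe_add]
          abel
        map_smul' := fun r x => by simp
        left_inv := fun y => by
          have h2 : f y.2.1 = 0 := y.2.2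
          refine Prod.ext ?_ (Subtype.ext ?_)
          · simp [hs', h2]
          · simp [hs', h2]
        right_inv := fun x => by simp }
    let e2 : (ι → R) ≃ₗ[R] (Fin (Fintype.card ι) → R) :=
      LinearEquiv.funCongrLeft R R (Fintype.equivFin _).symm
    obtain ⟨g⟩ := Pool.Agent.U674.TI.sumE (A := R) (Fintype.card ι) a
    exact ⟨b, Fintype.card ι + a, ⟨(LinearEquiv.prodCongr (LinearEquiv.refl R M) e.symm).trans
      ((LinearEquiv.prodAssoc R M (LinearMap.ker f) (Fin a → R)).symm.trans
        ((LinearEquiv.prodCongr (e1.trans e2) (LinearEquiv.refl R _)).trans g))⟩⟩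

theorem FR_of_SF {M : Type} [AddCommGroup M] [Module R M] (h : SF R M) : FR R 1 M := by
  obtain ⟨a, b, ⟨e⟩⟩ := h
  have hfst : Function.Surjective (LinearMap.fst R M (Fin a → R)) := fun x => ⟨(x, 0), rfl⟩
  refine ⟨Fin b, inferInstance, LinearMap.fst R M (Fin a → R) ∘ₗ e.symm.toLinearMap,
    hfst.comp e.symm.surjective, ?_⟩
  have h1 : FR R 0 (Fin a → R) := ⟨inferInstance, inferInstance⟩
  refine FR_equiv 0 ?_ h1
  exact
    { toFun := fun v => ⟨e (0, v), by
        rw [LinearMap.mem_ker, LinearMap.comp_apply, LinearEquiv.coe_coe,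
          LinearEquiv.symm_apply_apply]
        rfl⟩
      invFun := fun x => (e.symm x.1).2
      map_add' := fun x y => by
        apply Subtype.ext
        change e (0, x + y) = e (0, x) + e (0, y)
        rw [← map_add]
        simp
      map_smul' := fun r x => by
        apply Subtype.ext
        change e (0, r • x) = r • e (0, x)
        rw [← map_smul]
        simp
      left_inv := fun v => by simp
      right_inv := fun x => by
        have h : (e.symm x.1).1 = 0 := x.2
        apply Subtype.ext
        apply e.symm.injective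
        rw [LinearEquiv.symm_apply_apply]
        exact Prod.ext h.symm rfl }

end gen

end Pool.Agent.U674.FP
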